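import Mathlib

/-! # Finite Galois extensions of Dedekind domains: Frobenius and ramification when the Galois group has
bounded exponent -/

set_option autoImplicit false

namespace Pool.Agent.U218.UX

open IsDedekindDomain Ideal

section

variable (A k E : Type*) {B : Type*} [CommRing A] [IsDedekindDomain A] [Field k] [Algebra A k]
  [IsFractionRing A k] [Field E] [Algebra k E] [FiniteDimensional k E] [IsGalois k E] [Algebra A E]
  [IsScalarTower A k E] [CommRing B] [IsDedekindDomain B] [Algebra A B] [Algebra B E]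
  [IsFractionRing B E] [IsScalarTower A B E] [IsIntegralClosure B A E]

/-- if all elements of the Galois group have order dividing `n`, then the residue field at a prime
above `v` is inside the extension of degree `n` of the residue field at `v` -/
theorem frob (n : ℕ) (hn : ∀ g : E ≃ₐ[k] E, g ^ n = 1) (Q : Ideal B) [Q.IsPrime] [Finite (B ⧸ Q)]
    (x : B) : x ^ (Nat.card (A ⧸ Q.under A) ^ n) - x ∈ Q := by
  let _ := IsIntegralClosure.MulSemiringAction A k E B
  have h0 := Algebra.isInvariant_of_isGalois A k E B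
  have : Algebra.IsIntegral A B := ⟨fun x => IsIntegralClosure.isIntegral A E x⟩
  have : IsGaloisGroup (E ≃ₐ[k] E) A B := IsGaloisGroup.of_isFractionRing (E ≃ₐ[k] E) A B k E
  obtain ⟨σ, hσ⟩ := IsArithFrobAt.exists_of_isInvariant A (E ≃ₐ[k] E) Q
  have hσ' : ∀ y : B, Ideal.Quotient.mk Q (σ • y) =
      (Ideal.Quotient.mk Q y) ^ Nat.card (A ⧸ Q.under A) := by
    intro y
    rw [← map_pow, Ideal.Quotient.eq]
    exact hσ y
  have h1 : ∀ (j : ℕ) (y : B), Ideal.Quotient.mk Q ((σ ^ j) • y) =
      (Ideal.Quotient.mk Q y) ^ (Nat.card (A ⧸ Q.under A) ^ j) := by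
    intro j
    induction j with
    | zero => intro y; simp
    | succ j ih =>
      intro y
      rw [pow_succ', mul_smul, hσ', ih, ← pow_mul, pow_succ]
  have h2 := h1 n x
  rw [hn σ, one_smul] at h2
  rw [← Ideal.Quotient.eq, map_pow]
  exact h2.symm

/-- the ramification index is prime to every prime which does not divide the exponent -/
theorem ram (n : ℕ) (hn : ∀ g : E ≃ₐ[k] E, g ^ n = 1) [Module.Finite A B] [Module.IsTorsionFree A B]
    (v : HeightOneSpectrum A)
    (w : HeightOneSpectrum B) [w.asIdeal.LiesOver v.asIdeal] (ℓ : ℕ) [Fact ℓ.Prime] (hℓ : ¬ ℓ ∣ n) :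
    ¬ ℓ ∣ v.asIdeal.ramificationIdx' w.asIdeal := by
  let _ := IsIntegralClosure.MulSemiringAction A k E B
  have h0 := Algebra.isInvariant_of_isGalois A k E B
  have : IsGaloisGroup (E ≃ₐ[k] E) A B := IsGaloisGroup.of_isFractionRing (E ≃ₐ[k] E) A B k E
  intro h
  have h1 := ncard_primesOver_mul_ramificationIdxIn_mul_inertiaDegIn v.asIdeal B (E ≃ₐ[k] E)
  rw [ramificationIdxIn_eq_ramificationIdx v.asIdeal w.asIdeal (E ≃ₐ[k] E)] at h1
  have h2 : ℓ ∣ Nat.card (E ≃ₐ[k] E) := by
    rw [← h1]
    refine Dvd.dvd.mul_left (Dvd.dvd.mul_right ?_ _) _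
    rwa [← ramificationIdx'_eq_ramificationIdx v.asIdeal w.asIdeal v.ne_bot]
  obtain ⟨g, hg⟩ := exists_prime_orderOf_dvd_card' (G := E ≃ₐ[k] E) ℓ h2
  apply hℓ
  rw [← hg]
  exact orderOf_dvd_of_pow_eq_one (hn g)

end

end Pool.Agent.U218.UX
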