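import Mathlib

/-! # Tame ramification divides the exponent of the Galois group -/

set_option autoImplicit false
set_option linter.all false

namespace Pool.Agent.U218.UX

open IsDedekindDomain Ideal WithZero

section

variable {A k E : Type*} {B : Type*} [CommRing A] [IsDedekindDomain A] [Field k] [Algebra A k]
  [IsFractionRing A k] [Field E] [Algebra k E] [FiniteDimensional k E] [IsGalois k E] [Algebra A E]
  [IsScalarTower A k E] [CommRing B] [IsDedekindDomain B] [Algebra A B] [Algebra B E]
  [IsFractionRing B E] [IsScalarTower A B E] [IsIntegralClosure B A E]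

/-- an automorphism which preserves the prime does not increase the valuation -/
theorem intVal_le (w : HeightOneSpectrum B) (τ : B →+* B) (hτ : Function.Injective τ)
    (h : ∀ x ∈ w.asIdeal, τ x ∈ w.asIdeal) (x : B) : w.intValuation (τ x) ≤ w.intValuation x := by
  by_cases hx : x = 0
  · rw [hx, map_zero]
  obtain ⟨n, hn⟩ : ∃ n : ℕ, w.intValuation x = exp (-(n : ℤ)) := ⟨_, w.intValuation_if_neg hx⟩
  rw [hn, w.intValuation_le_pow_iff_mem]
  have h1 : x ∈ w.asIdeal ^ n := by
    rw [← w.intValuation_le_pow_iff_mem, hn]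
  have h2 : τ x ∈ (w.asIdeal ^ n).map τ := Ideal.mem_map_of_mem τ h1
  rw [Ideal.map_pow] at h2
  refine Ideal.pow_right_mono ?_ n h2
  rw [Ideal.map_le_iff_le_comap]
  exact h

variable (A) in
/-- the inertia group at a prime -/
def inert (k : Type*) {E B : Type*} [Field k] [Algebra A k] [IsFractionRing A k] [Field E]
    [Algebra k E] [FiniteDimensional k E] [Algebra A E] [IsScalarTower A k E] [CommRing B]
    [Algebra A B] [Algebra B E] [IsFractionRing B E]
    [IsScalarTower A B E] [IsIntegralClosure B A E] (P : Ideal B) (σ : E ≃ₐ[k] E) : Prop :=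
  ∀ x : B, galRestrict A k E B σ x - x ∈ P

omit [IsGalois k E] in
theorem inert.val {w : HeightOneSpectrum B} {σ : E ≃ₐ[k] E} (hσ : inert A k w.asIdeal σ)
    (hσ' : inert A k w.asIdeal σ⁻¹) (x : E) : w.valuation E (σ x) = w.valuation E x := by
  have h0 : ∀ τ : E ≃ₐ[k] E, inert A k w.asIdeal τ → ∀ b : B,
      w.intValuation (galRestrict A k E B τ b) ≤ w.intValuation b := by
    intro τ hτ b
    refine intVal_le w (galRestrict A k E B τ : B →+* B) (galRestrict A k E B τ).injective ?_ b
    intro x hx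
    have h1 := w.asIdeal.add_mem (hτ x) hx
    rwa [sub_add_cancel] at h1
  have h1 : ∀ b : B, w.valuation E (σ (algebraMap B E b)) = w.valuation E (algebraMap B E b) := by
    intro b
    rw [← algebraMap_galRestrict_apply (A := A) (K := k) (σ := σ) b, w.valuation_of_algebraMap,
      w.valuation_of_algebraMap]
    refine le_antisymm (h0 σ hσ b) ?_
    have h2 := h0 σ⁻¹ hσ' (galRestrict A k E B σ b)
    rw [← AlgEquiv.mul_apply, ← map_mul, inv_mul_cancel, map_one] at h2
    exact h2
  obtain ⟨a, b, hb, rfl⟩ := IsFractionRing.div_surjective (A := B) x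
  rw [map_div₀, map_div₀, map_div₀, h1, h1]

omit [IsGalois k E] in
theorem inert.red {w : HeightOneSpectrum B} {σ : E ≃ₐ[k] E} (hσ : inert A k w.asIdeal σ)
    (hσ' : inert A k w.asIdeal σ⁻¹) (x : E) (hx : w.valuation E x ≤ 1) :
    w.valuation E (σ x - x) < 1 := by
  obtain ⟨b, hb⟩ := w.exists_valuation_sub_lt_of_integer hx 1
  have h1 : w.valuation E (σ (algebraMap B E b) - algebraMap B E b) < 1 := by
    rw [← algebraMap_galRestrict_apply (A := A) (K := k) (σ := σ) b, ← map_sub]
    exact (HeightOneSpectrum.valuation_lt_one_iff_mem w _).2 (hσ b)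
  have h2 : σ x - x = (σ (algebraMap B E b) - algebraMap B E b) -
      (σ (algebraMap B E b - x)) + (algebraMap B E b - x) := by
    rw [map_sub]
    ring
  rw [h2]
  have h3 : w.valuation E (algebraMap B E b - x) < 1 := hb
  have h4 : w.valuation E (σ (algebraMap B E b - x)) < 1 := by rwa [hσ.val hσ']
  exact (Valuation.map_add _ _ _).trans_lt (max_lt ((Valuation.map_sub _ _ _).trans_lt
    (max_lt h1 h4)) h3)

omit [IsGalois k E] in
/-- A tame automorphism in the inertia group which acts trivially on a uniformiser is trivial. -/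
theorem inert.eq_one {w : HeightOneSpectrum B} {σ : E ≃ₐ[k] E} (hσ : inert A k w.asIdeal σ)
    (hσ' : inert A k w.asIdeal σ⁻¹) (n : ℕ) (hn : w.valuation E (n : E) = 1) (hσn : σ ^ n = 1)
    (π : E) (hπ : w.valuation E π = exp (-1)) (hπσ : w.valuation E (σ π / π - 1) < 1) : σ = 1 := by
  have hπ0 : π ≠ 0 := by
    rintro rfl
    rw [map_zero] at hπ
    exact exp_ne_zero hπ.symm
  have hval := hσ.val hσ'
  have hvalj : ∀ (j : ℕ) (x : E), w.valuation E ((σ ^ j) x) = w.valuation E x := by
    intro j
    induction j with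
    | zero => intro x; rfl
    | succ j ih => intro x; rw [pow_succ', AlgEquiv.mul_apply, hval, ih]
  -- small differences
  have hdiff : ∀ (j : ℕ) (x : E), w.valuation E x ≤ 1 → w.valuation E ((σ ^ j) x - x) < 1 := by
    intro j
    induction j with
    | zero => intro x hx; rw [pow_zero, AlgEquiv.one_apply, sub_self, map_zero]; exact zero_lt_one
    | succ j ih =>
      intro x hx
      have h1 : (σ ^ (j + 1)) x - x = (σ ((σ ^ j) x) - (σ ^ j) x) + ((σ ^ j) x - x) := by
        rw [pow_succ', AlgEquiv.mul_apply]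
        ring
      rw [h1]
      refine (Valuation.map_add _ _ _).trans_lt (max_lt ?_ (ih x hx))
      exact hσ.red hσ' _ (by rwa [hvalj])
  have hπj : ∀ j : ℕ, w.valuation E ((σ ^ j) π - π) < exp (-1) := by
    have h0 : w.valuation E (σ π - π) < exp (-1) := by
      have h1 : σ π - π = (σ π / π - 1) * π := by
        field_simp
      rw [h1, map_mul, hπ]
      calc _ < 1 * exp (-1) := mul_lt_mul_of_pos_right hπσ (zero_lt_iff.2 exp_ne_zero)
        _ = _ := one_mul _
    intro j
    induction j with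
    | zero => rw [pow_zero, AlgEquiv.one_apply, sub_self, map_zero]; exact zero_lt_iff.2 exp_ne_zero
    | succ j ih =>
      have h1 : (σ ^ (j + 1)) π - π = σ ((σ ^ j) π - π) + (σ π - π) := by
        rw [pow_succ', AlgEquiv.mul_apply, map_sub]
        ring
      rw [h1]
      refine (Valuation.map_add _ _ _).trans_lt (max_lt ?_ h0)
      rwa [hval]
  -- the traces
  have hfix : ∀ x : E, σ (∑ j ∈ Finset.range n, (σ ^ j) x) = ∑ j ∈ Finset.range n, (σ ^ j) x := by
    intro x
    have h1 : ∑ j ∈ Finset.range (n + 1), (σ ^ j) x = ∑ j ∈ Finset.range n, (σ ^ j) x + x := by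
      rw [Finset.sum_range_succ, hσn, AlgEquiv.one_apply]
    rw [Finset.sum_range_succ'] at h1
    rw [map_sum]
    have h2 : ∀ j, σ ((σ ^ j) x) = (σ ^ (j + 1)) x := fun j => by
      rw [pow_succ', AlgEquiv.mul_apply]
    simp only [h2]
    rw [pow_zero, AlgEquiv.one_apply] at h1
    exact add_right_cancel h1
  obtain ⟨ϖ, hϖ⟩ : ∃ ϖ, ϖ = ∑ j ∈ Finset.range n, (σ ^ j) π := ⟨_, rfl⟩
  have hσϖ : σ ϖ = ϖ := by rw [hϖ]; exact hfix π
  have hϖv : w.valuation E ϖ = exp (-1) := by
    have h1 : ϖ = (∑ j ∈ Finset.range n, ((σ ^ j) π - π)) + (n : E) * π := by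
      rw [hϖ, Finset.sum_sub_distrib, Finset.sum_const, Finset.card_range, nsmul_eq_mul]
      ring
    have h2 : w.valuation E ((n : E) * π) = exp (-1) := by rw [map_mul, hn, one_mul, hπ]
    rw [h1, Valuation.map_add_eq_of_lt_right _ (by
      rw [h2]
      exact Valuation.map_sum_lt _ exp_ne_zero fun j _ => hπj j), h2]
  have hϖ0 : ϖ ≠ 0 := by
    rintro h
    rw [h, map_zero] at hϖv
    exact exp_ne_zero hϖv.symm
  -- the descent
  have key : ∀ (m : ℕ) (x : E), w.valuation E x ≤ 1 →
      w.valuation E (σ x - x) ≤ exp (-(m : ℤ)) := by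
    intro m
    induction m with
    | zero =>
      intro x hx
      have := (hσ.red hσ' x hx).le
      simpa using this
    | succ m ih =>
      intro x hx
      obtain ⟨y, hy⟩ : ∃ y, y = ∑ j ∈ Finset.range n, (σ ^ j) x := ⟨_, rfl⟩
      have hσy : σ y = y := by rw [hy]; exact hfix x
      obtain ⟨z, hz⟩ : ∃ z, z = ((n : E) * x - y) / ϖ := ⟨_, rfl⟩
      have hz1 : (n : E) * x - y = ϖ * z := by
        rw [hz]
        field_simp
      have hz2 : w.valuation E ((n : E) * x - y) ≤ exp (-1) := by
        have h1 : (n : E) * x - y = -(∑ j ∈ Finset.range n, ((σ ^ j) x - x)) := by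
          rw [hy, Finset.sum_sub_distrib, Finset.sum_const, Finset.card_range, nsmul_eq_mul]
          ring
        rw [h1, Valuation.map_neg]
        have h2 := Valuation.map_sum_lt (w.valuation E) (s := Finset.range n)
          (f := fun j => (σ ^ j) x - x) one_ne_zero fun j _ => hdiff j x hx
        have h3 : ∀ γ : ℤᵐ⁰, γ < 1 → γ ≤ exp (-1) := by
          intro γ hγ
          by_cases h0 : γ = 0
          · rw [h0]; exact zero_le
          · rw [← exp_log h0, ← exp_zero, exp_lt_exp] at hγ
            rw [← exp_log h0, exp_le_exp]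
            omega
        exact h3 _ h2
      have hz3 : w.valuation E z ≤ 1 := by
        rw [hz1, map_mul, hϖv] at hz2
        by_contra h4
        rw [not_le] at h4
        have h5 : exp (-1) * 1 < exp (-1) * w.valuation E z :=
          mul_lt_mul_of_pos_left h4 (zero_lt_iff.2 exp_ne_zero)
        rw [mul_one] at h5
        exact absurd hz2 (not_le.2 h5)
      have h6 : (n : E) * (σ x - x) = ϖ * (σ z - z) := by
        have h7 : σ ((n : E) * x - y) = σ (ϖ * z) := by rw [hz1]
        rw [map_sub, map_mul, map_mul, map_natCast, hσy, hσϖ] at h7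
        linear_combination h7 - hz1
      have h8 : w.valuation E (σ x - x) = exp (-1) * w.valuation E (σ z - z) := by
        rw [← hϖv, ← map_mul, ← h6, map_mul, hn, one_mul]
      rw [h8]
      calc _ ≤ exp (-1) * exp (-(m : ℤ)) := mul_le_mul_right (ih z hz3) _
        _ = _ := by
          rw [← exp_add]
          congr 1
          push_cast
          ring
  have hσx : ∀ x : E, w.valuation E x ≤ 1 → σ x = x := by
    intro x hx
    rw [← sub_eq_zero, ← Valuation.zero_iff (w.valuation E)]
    by_contra h0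
    have h1 := key ((1 - log (w.valuation E (σ x - x))).toNat) x hx
    rw [← exp_log h0, exp_le_exp] at h1
    rw [log_exp] at h1
    have := Int.self_le_toNat (1 - log (w.valuation E (σ x - x)))
    omega
  ext x
  rw [AlgEquiv.one_apply]
  rcases le_total (w.valuation E x) 1 with hx | hx
  · exact hσx x hx
  · have h1 : w.valuation E x⁻¹ ≤ 1 := by
      rw [map_inv₀]
      exact inv_le_one_of_one_le₀ hx
    have h2 := hσx _ h1
    rw [map_inv₀] at h2
    exact inv_injective h2

/-- **Tame ramification.** If all elements of the Galois group have order dividing `n` and the residue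
characteristic does not divide `n`, then the ramification index divides `n`. -/
theorem tame (n : ℕ) (hn : ∀ g : E ≃ₐ[k] E, g ^ n = 1) [Module.Finite A B]
    [Module.IsTorsionFree A B] (v : HeightOneSpectrum A) (w : HeightOneSpectrum B)
    [w.asIdeal.LiesOver v.asIdeal] [Finite (A ⧸ v.asIdeal)] (hnv : (n : A) ∉ v.asIdeal) :
    v.asIdeal.ramificationIdx' w.asIdeal ∣ n := by
  let _ := IsIntegralClosure.MulSemiringAction A k E B
  have h0 := Algebra.isInvariant_of_isGalois A k E B
  have : IsGaloisGroup (E ≃ₐ[k] E) A B := IsGaloisGroup.of_isFractionRing (E ≃ₐ[k] E) A B k E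
  have hmaxv : v.asIdeal.IsMaximal := v.isMaximal
  have hfinres : Finite v.asIdeal.ResidueField :=
    Finite.of_surjective _ v.asIdeal.bijective_algebraMap_quotient_residueField.surjective
  have hcard := card_inertia_eq_ramificationIdxIn (G := E ≃ₐ[k] E) v.asIdeal w.asIdeal
  rw [ramificationIdxIn_eq_ramificationIdx v.asIdeal w.asIdeal (E ≃ₐ[k] E),
    ← ramificationIdx'_eq_ramificationIdx v.asIdeal w.asIdeal v.ne_bot] at hcard
  rw [← hcard]
  -- the inertia group
  have hI : ∀ σ : inertia (E ≃ₐ[k] E) w.asIdeal, inert A k w.asIdeal (σ : E ≃ₐ[k] E) := by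
    intro σ x
    exact σ.2 x
  have hI' : ∀ σ : inertia (E ≃ₐ[k] E) w.asIdeal, inert A k w.asIdeal (σ : E ≃ₐ[k] E)⁻¹ := by
    intro σ x
    exact (σ⁻¹).2 x
  obtain ⟨π, hπ⟩ := w.valuation_exists_uniformizer E
  have hπ0 : π ≠ 0 := by
    rintro rfl
    rw [map_zero] at hπ
    exact exp_ne_zero hπ.symm
  have hnw : w.valuation E (n : E) = 1 := by
    have h1 : (n : E) = algebraMap B E (algebraMap A B (n : A)) := by
      rw [map_natCast, map_natCast]
    rw [h1, HeightOneSpectrum.valuation_eq_one_iff_notMem]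
    intro h2
    apply hnv
    have h3 := over_def w.asIdeal v.asIdeal
    rw [h3]
    exact h2
  set O := (w.valuation E).valuationSubring with hO
  have hu : ∀ σ : inertia (E ≃ₐ[k] E) w.asIdeal,
      w.valuation E ((σ : E ≃ₐ[k] E) π / π) = 1 := by
    intro σ
    rw [map_div₀, (hI σ).val (hI' σ), div_self ((Valuation.ne_zero_iff _).2 hπ0)]
  have hmax : ∀ x : O, x ∈ IsLocalRing.maximalIdeal O ↔ w.valuation E (x : E) < 1 := fun x =>
    Valuation.mem_maximalIdeal_iff (v := w.valuation E)
  let θ : inertia (E ≃ₐ[k] E) w.asIdeal →* IsLocalRing.ResidueField O :=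
    { toFun := fun σ => IsLocalRing.residue O ⟨(σ : E ≃ₐ[k] E) π / π, (hu σ).le⟩
      map_one' := by
        have h1 : (⟨((1 : inertia (E ≃ₐ[k] E) w.asIdeal) : E ≃ₐ[k] E) π / π, (hu 1).le⟩ : O) = 1 :=
          Subtype.ext (div_self hπ0)
        rw [h1, map_one]
      map_mul' := fun σ τ => by
        rw [← map_mul, ← sub_eq_zero, ← map_sub, IsLocalRing.residue_eq_zero_iff, hmax]
        change w.valuation E (((σ * τ : inertia (E ≃ₐ[k] E) w.asIdeal) : E ≃ₐ[k] E) π / π -
          ((σ : E ≃ₐ[k] E) π / π) * ((τ : E ≃ₐ[k] E) π / π)) < 1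
        have h1 : ((σ * τ : inertia (E ≃ₐ[k] E) w.asIdeal) : E ≃ₐ[k] E) π / π -
          ((σ : E ≃ₐ[k] E) π / π) * ((τ : E ≃ₐ[k] E) π / π) = ((σ : E ≃ₐ[k] E) π / π) *
            ((σ : E ≃ₐ[k] E) ((τ : E ≃ₐ[k] E) π / π) - ((τ : E ≃ₐ[k] E) π / π)) := by
          have h2 : ((σ * τ : inertia (E ≃ₐ[k] E) w.asIdeal) : E ≃ₐ[k] E) π =
              (σ : E ≃ₐ[k] E) ((τ : E ≃ₐ[k] E) π) := rfl
          have h3 : (σ : E ≃ₐ[k] E) π ≠ 0 := by
            rw [Ne, map_eq_zero_iff _ (σ : E ≃ₐ[k] E).injective]
            exact hπ0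
          rw [h2, map_div₀]
          field_simp
        rw [h1, map_mul, hu, one_mul]
        exact (hI σ).red (hI' σ) _ (hu τ).le }
  have hθ : Function.Injective θ := by
    rw [injective_iff_map_eq_one]
    intro σ hσ
    apply Subtype.ext
    change (σ : E ≃ₐ[k] E) = 1
    refine (hI σ).eq_one (hI' σ) n hnw (hn _) π hπ ?_
    have h1 : IsLocalRing.residue O ⟨(σ : E ≃ₐ[k] E) π / π, (hu σ).le⟩ = 1 := hσ
    rw [← map_one (IsLocalRing.residue O), ← sub_eq_zero, ← map_sub,
      IsLocalRing.residue_eq_zero_iff, hmax] at h1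
    exact h1
  have hcyc : IsCyclic (inertia (E ≃ₐ[k] E) w.asIdeal) := isCyclic_of_injective_ringHom θ hθ
  obtain ⟨g, hg⟩ := hcyc.exists_generator
  have h1 : orderOf g = Nat.card (inertia (E ≃ₐ[k] E) w.asIdeal) :=
    orderOf_eq_card_of_forall_mem_zpowers hg
  rw [← h1]
  apply orderOf_dvd_of_pow_eq_one
  apply Subtype.ext
  exact hn _

end

end Pool.Agent.U218.UX
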