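import Mathlib

/-! # Powers of automorphisms without fixed roots, for irreducible polynomials of prime power degree -/

set_option autoImplicit false
set_option linter.all false

namespace Pool.Agent.U218.UX

open Polynomial

/-- a Sylow subgroup of a transitive group of prime power degree is transitive -/
theorem sylow_transitive {G X : Type*} [Group G] [Finite G] [MulAction G X] [Finite X]
    [MulAction.IsPretransitive G X] (p r : ℕ) [Fact p.Prime] (hX : Nat.card X = p ^ r)
    (P : Sylow p G) : MulAction.IsPretransitive P X := by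
  classical
  have hp : p.Prime := Fact.out
  have hfull : ∀ x : X, MulAction.orbit P x = Set.univ := by
    intro x
    obtain ⟨H, hH⟩ : ∃ H : Subgroup G, H = MulAction.stabilizer G x ⊓ (P : Subgroup G) := ⟨_, rfl⟩
    have h1 : H.relIndex (P : Subgroup G) * (P : Subgroup G).index = H.index :=
      Subgroup.relIndex_mul_index (hH ▸ inf_le_right)
    have h2 : H.relIndex (MulAction.stabilizer G x) * (MulAction.stabilizer G x).index = H.index :=
      Subgroup.relIndex_mul_index (hH ▸ inf_le_left)
    have h3 : (MulAction.stabilizer G x).index = p ^ r := by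
      rw [MulAction.index_stabilizer, MulAction.orbit_eq_univ, Set.ncard_univ, hX]
    have h4 : H.relIndex (P : Subgroup G) = (MulAction.stabilizer P x).index := by
      rw [Subgroup.relIndex, hH]
      congr 1
      ext g
      simp [Subgroup.mem_subgroupOf]
      rfl
    have h5 : p ^ r ∣ (MulAction.stabilizer P x).index := by
      have h6 : p ^ r ∣ (MulAction.stabilizer P x).index * (P : Subgroup G).index := by
        rw [← h4, h1, ← h2, h3]
        exact Dvd.intro_left _ rfl
      refine Nat.Coprime.dvd_of_dvd_mul_right ?_ h6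
      refine Nat.Coprime.pow_left _ ?_
      exact (Nat.Prime.coprime_iff_not_dvd hp).2 P.not_dvd_index
    rw [MulAction.index_stabilizer] at h5
    have h7 : 0 < (MulAction.orbit P x).ncard :=
      (Set.ncard_pos (Set.toFinite _)).2 ⟨x, MulAction.mem_orbit_self x⟩
    have h8 : Nat.card X ≤ (MulAction.orbit P x).ncard := by
      rw [hX]
      exact Nat.le_of_dvd h7 h5
    exact Set.eq_of_subset_of_ncard_le (Set.subset_univ _) (by rwa [Set.ncard_univ])
      (Set.toFinite _)
  exact ⟨fun x y => by
    have : y ∈ MulAction.orbit P x := by rw [hfull]; trivial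
    exact this⟩

/-- a transitive finite group on at least two points has an element without fixed points -/
theorem exists_no_fixed {G X : Type*} [Group G] [Finite G] [MulAction G X] [Finite X]
    [MulAction.IsPretransitive G X] (h2 : 2 ≤ Nat.card X) : ∃ g : G, ∀ x : X, g • x ≠ x := by
  classical
  by_contra hc
  push Not at hc
  have : Fintype G := Fintype.ofFinite _
  have : Fintype X := Fintype.ofFinite _
  have hfix : ∀ g : G, 1 ≤ Fintype.card (MulAction.fixedBy X g) := by
    intro g
    obtain ⟨x, hx⟩ := hc g
    exact Fintype.card_pos_iff.2 ⟨⟨x, hx⟩⟩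
  have hone : 1 < Fintype.card (MulAction.fixedBy X (1 : G)) := by
    have h1 : MulAction.fixedBy X (1 : G) = Set.univ := by
      ext x
      simp [MulAction.mem_fixedBy]
    have h3 : Fintype.card (MulAction.fixedBy X (1 : G)) = Fintype.card X := by
      rw [← Set.toFinset_card]
      simp only [h1, Set.toFinset_univ, Finset.card_univ]
    rw [h3, ← Nat.card_eq_fintype_card]
    omega
  have hlt : ∑ _g : G, 1 < ∑ g : G, Fintype.card (MulAction.fixedBy X g) :=
    Finset.sum_lt_sum (fun g _ => hfix g) ⟨1, Finset.mem_univ _, hone⟩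
  have horb : Fintype.card (MulAction.orbitRel.Quotient G X) ≤ 1 := by
    rw [Fintype.card_le_one_iff_subsingleton]
    exact (MulAction.pretransitive_iff_subsingleton_quotient _ _).1 inferInstance
  have hB := MulAction.sum_card_fixedBy_eq_card_orbits_mul_card_group G X
  rw [hB, Finset.sum_const, Finset.card_univ, smul_eq_mul, mul_one] at hlt
  have hle : Fintype.card (MulAction.orbitRel.Quotient G X) * Fintype.card G ≤
      1 * Fintype.card G := Nat.mul_le_mul_right _ horb
  rw [one_mul] at hle
  exact absurd hlt (not_lt.2 hle)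

/-- If `f` is irreducible of degree `p ^ r ≥ 2` and `p` does not divide `m`, then the `m`-th power of some
automorphism fixes no root of `f`. -/
theorem exists_pow_derangement {K : Type*} [Field K] [CharZero K] (f : K[X]) (hf : Irreducible f)
    (p r m : ℕ) (hp : p.Prime) (hdeg : f.natDegree = p ^ r) (h2 : 2 ≤ f.natDegree)
    (hm : ¬ p ∣ m) : ∃ σ : AlgebraicClosure K ≃ₐ[K] AlgebraicClosure K,
      ∀ θ : AlgebraicClosure K, aeval θ f = 0 → (σ ^ m) θ ≠ θ := by
  classical
  have hfp : Fact p.Prime := ⟨hp⟩
  have hsp : Fact ((f.map (algebraMap K (AlgebraicClosure K))).Splits) := ⟨IsAlgClosed.splits _⟩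
  have htr : MulAction.IsPretransitive f.Gal (f.rootSet (AlgebraicClosure K)) :=
    Polynomial.Gal.galAction_isPretransitive f (AlgebraicClosure K) hf
  have hcard : Nat.card (f.rootSet (AlgebraicClosure K)) = f.natDegree := by
    rw [Nat.card_eq_fintype_card]
    exact card_rootSet_eq_natDegree hf.separable hsp.out
  let P : Sylow p f.Gal := default
  have hPt : MulAction.IsPretransitive P (f.rootSet (AlgebraicClosure K)) :=
    sylow_transitive p r (by rw [hcard, hdeg]) P
  obtain ⟨g, hg⟩ := exists_no_fixed (G := P) (X := f.rootSet (AlgebraicClosure K))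
    (by rw [hcard]; exact h2)
  -- an `m`-th root of `g`
  obtain ⟨h, hh⟩ : ∃ h : P, h ^ m = g := by
    obtain ⟨s, hs⟩ := P.isPGroup' g
    have hcop : Nat.Coprime m (orderOf g) := by
      have h3 : orderOf g ∣ p ^ s := orderOf_dvd_of_pow_eq_one hs
      refine Nat.Coprime.coprime_dvd_right h3 ?_
      exact Nat.Coprime.pow_right _ (((Nat.Prime.coprime_iff_not_dvd hp).2 hm).symm)
    obtain ⟨t, ht⟩ := exists_pow_eq_self_of_coprime hcop
    exact ⟨g ^ t, by rw [← pow_mul, mul_comm, pow_mul, ht]⟩
  obtain ⟨σ, hσ⟩ := Polynomial.Gal.restrict_surjective f (AlgebraicClosure K) (h : f.Gal)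
  refine ⟨σ, fun θ hθ hfix => ?_⟩
  have hmem : θ ∈ f.rootSet (AlgebraicClosure K) := by
    rw [mem_rootSet]
    exact ⟨hf.ne_zero, hθ⟩
  apply hg ⟨θ, hmem⟩
  have h3 : ((g : f.Gal)) = Polynomial.Gal.restrict f (AlgebraicClosure K) (σ ^ m) := by
    rw [map_pow, hσ, ← hh]
    rfl
  change (g : f.Gal) • (⟨θ, hmem⟩ : f.rootSet (AlgebraicClosure K)) = _
  apply Subtype.ext
  rw [h3, Polynomial.Gal.restrict_smul]
  exact hfix

end Pool.Agent.U218.UX
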