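import Pool.Agent.U218.UX.Pt
import Pool.Agent.U218.UX.Spec

/-! # Density of the twists without sections over all fields of a bounded family (after part FG of helper141) -/

set_option autoImplicit false
set_option linter.all false

namespace Pool.Agent.U218.UX

open IsDedekindDomain NumberField WithZero Polynomial FF Pool.Agent.W623.SecC Pool.Agent.W858.SF
open Pool.Agent.W858.SG hiding exists_spec lift_derangement
open Pool.Agent.Y157.PS (S_FUN FineP fineP)

/-- the twist has neither points nor sections over all the fields of the family -/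
def FineU (n : ℕ) {k : Type} [Field k] (a : k) (f : k[X]) : Prop :=
  ∀ (k' : Type) [Field k'] [Algebra k k'], Adm n k k' → ∀ ℓ : ℕ, ℓ.Prime → ℓ ∣ f.natDegree →
    ¬ ℓ ∣ n → FineP ℓ (algebraMap k k' a) (f.map (algebraMap k k'))

theorem density_of_point (n : ℕ) (hFUN : S_FUN) {R k : Type} [CommRing R] [Field k] [CharZero k]
    [Countable k] [Algebra R k]
    (hinjk : Function.Injective (algebraMap R k)) (f : k[X]) (d : R) (F : R[X])
    (hdF : C (algebraMap R k d) * f = F.map (algebraMap R k)) (hdk : algebraMap R k d ≠ 0)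
    (hFf : F.natDegree = f.natDegree) (h3F : 3 ≤ F.natDegree) {L : Type} [Field L] [NumberField L] (P : R →+* L)
    (hd : P d ≠ 0) (hlc : P F.leadingCoeff ≠ 0) (hsep : (F.map P).Separable)
    (hσ : ∃ σ' : AlgebraicClosure L ≃ₐ[L] AlgebraicClosure L,
        ∀ θ : AlgebraicClosure L, aeval θ (F.map P) = 0 → (σ' ^ n) θ ≠ θ)
    (hemb : AE fun v : HeightOneSpectrum (𝓞 L) => (∀ r, v.valuation L (P r) ≤ 1) ∧
      ∃ ψ : k →+* v.adicCompletion L,
        ∀ r, vv v (ψ (algebraMap R k r) - algebraMap L (v.adicCompletion L) (P r)) ≤ exp (-2))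
    (hM : ∃ M : ℤ, M ≠ 0 ∧ ∀ y : 𝓞 L, ∃ r : R, (M : L) * algebraMap (𝓞 L) L y = P r)
    (ε : ℝ) (hε : 0 < ε) :
    ∃ I : Ideal R, Finite (R ⧸ I) ∧
      (Set.ncard ((Ideal.Quotient.mk I) ''
        {a : R | ¬ FineU n (algebraMap R k a) f}) : ℝ) ≤ ε * Nat.card (R ⧸ I) := by
  classical
  obtain ⟨M, hM0, hM⟩ := hM
  obtain ⟨c, hc, hcf⟩ := IsLocalization.integerNormalization_spec (nonZeroDivisors (𝓞 L)) (F.map P)
  set g := IsLocalization.integerNormalization (nonZeroDivisors (𝓞 L)) (F.map P) with hg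
  have hc0 : c ≠ 0 := nonZeroDivisors.ne_zero hc
  have hinj : Function.Injective (algebraMap (𝓞 L) L) := IsFractionRing.injective (𝓞 L) L
  have hcK : algebraMap (𝓞 L) L c ≠ 0 := by
    rw [Ne, map_eq_zero_iff _ hinj]
    exact hc0
  have hgf : g.map (algebraMap (𝓞 L) L) = C (algebraMap (𝓞 L) L c) * F.map P := by
    rw [hcf]
    ext i
    rw [coeff_smul, coeff_C_mul, Algebra.smul_def]
  have hdegP : (F.map P).natDegree = F.natDegree :=
    natDegree_map_of_leadingCoeff_ne_zero P hlc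
  have hdeg : g.natDegree = F.natDegree := by
    rw [← natDegree_map_eq_of_injective hinj g, hgf, natDegree_C_mul hcK, hdegP]
  have hgs : (g.map (algebraMap (𝓞 L) L)).Separable := by
    rw [hgf]
    exact Separable.unit_mul (isUnit_C.2 hcK.isUnit) hsep
  have hgσ : ∃ σ : AlgebraicClosure L ≃ₐ[L] AlgebraicClosure L,
      ∀ θ : AlgebraicClosure L, aeval θ (g.map (algebraMap (𝓞 L) L)) = 0 → (σ ^ n) θ ≠ θ := by
    obtain ⟨σ, hσ⟩ := hσ
    refine ⟨σ, fun θ hθ => hσ θ ?_⟩
    rw [hgf, map_mul, aeval_C] at hθ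
    exact (mul_eq_zero.1 hθ).resolve_left ((_root_.map_ne_zero _).2 hcK)
  obtain ⟨N1, hN1, hemb⟩ := hemb
  obtain ⟨N2, hN2, hunit⟩ := AE.unit (P d) hd
  have hMO : (M : 𝓞 L) ≠ 0 := by exact_mod_cast hM0
  have hdL : (F.natDegree : 𝓞 L) ≠ 0 := by
    rw [Nat.cast_ne_zero]
    omega
  have hn0 : n ≠ 0 := by
    rintro rfl
    obtain ⟨σ, hσ⟩ := hσ
    have hdeg0 : 0 < (F.map P).natDegree := by
      rw [hdegP]
      omega
    obtain ⟨θ, hθ⟩ := IsAlgClosed.exists_aeval_eq_zero (AlgebraicClosure L) (F.map P)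
      (natDegree_pos_iff_degree_pos.1 hdeg0).ne'
    refine hσ θ hθ ?_
    rw [pow_zero, AlgEquiv.one_apply]
  have hnO : (n : 𝓞 L) ≠ 0 := by exact_mod_cast hn0
  obtain ⟨T, hT', hTε⟩ := partD1 n L g
    ((c * N1 * N2 * (M : 𝓞 L)) * (F.natDegree : 𝓞 L) * (n : 𝓞 L))
    (mul_ne_zero (mul_ne_zero (mul_ne_zero (mul_ne_zero (mul_ne_zero hc0 hN1) hN2) hMO) hdL) hnO)
    hgs hgσ ε hε
  have hTn : ∀ v ∈ T, (n : 𝓞 L) ∉ v.asIdeal := fun v hv h => (hT' v hv).1
    (Ideal.mul_mem_left _ _ h)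
  have hT : ∀ v ∈ T, (c * N1 * N2 * (M : 𝓞 L)) * (F.natDegree : 𝓞 L) ∉ v.asIdeal ∧
      (2 : 𝓞 L) ∉ v.asIdeal ∧ g.leadingCoeff ∉ v.asIdeal ∧
        (g.map (Ideal.Quotient.mk v.asIdeal)).Separable ∧ NoRootIn n v g := fun v hv =>
    ⟨fun h => (hT' v hv).1 (Ideal.mul_mem_right _ _ h), (hT' v hv).2⟩
  have hT1 : ∀ v ∈ T, c * N1 * N2 * (M : 𝓞 L) ∉ v.asIdeal := fun v hv h => (hT v hv).1
    (Ideal.mul_mem_right _ _ h)
  have hTc : ∀ v ∈ T, c ∉ v.asIdeal := fun v hv h => hT1 v hv
    (Ideal.mul_mem_right _ _ (Ideal.mul_mem_right _ _ (Ideal.mul_mem_right _ _ h)))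
  have hTN1 : ∀ v ∈ T, N1 ∉ v.asIdeal := fun v hv h => hT1 v hv
    (Ideal.mul_mem_right _ _ (Ideal.mul_mem_right _ _ (Ideal.mul_mem_left _ _ h)))
  have hTN2 : ∀ v ∈ T, N2 ∉ v.asIdeal := fun v hv h => hT1 v hv
    (Ideal.mul_mem_right _ _ (Ideal.mul_mem_left _ _ h))
  have hTM : ∀ v ∈ T, (M : 𝓞 L) ∉ v.asIdeal := fun v hv h => hT1 v hv
    (Ideal.mul_mem_left _ _ h)
  have hTℓ : ∀ v ∈ T, ∀ ℓ : ℕ, ℓ ∣ F.natDegree → (ℓ : 𝓞 L) ∉ v.asIdeal := by
    intro v hv ℓ hℓd h
    apply (hT v hv).1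
    obtain ⟨n, hn⟩ := hℓd
    rw [hn, Nat.cast_mul]
    exact Ideal.mul_mem_left _ _ (Ideal.mul_mem_right _ _ h)
  have hPint : ∀ v ∈ T, ∀ r, v.valuation L (P r) ≤ 1 := fun v hv => (hemb v (hTN1 v hv)).1
  -- the twists with valuation one
  have hfine : ∀ v ∈ T, ∀ a : R, v.valuation L (P a) = exp (-1) →
      FineU n (algebraMap R k a) f := by
    intro v hv a ha k' _ _ hk' ℓ hℓ hℓd hℓn
    have hfact : Fact ℓ.Prime := ⟨hℓ⟩
    have hczk' : CharZero k' := charZero_of_injective_algebraMap (algebraMap k k').injective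
    rw [← hFf] at hℓd
    obtain ⟨-, -, hlcv, hsv, hrv⟩ := hT v hv
    obtain ⟨hint, ψ, hψ⟩ := hemb v (hTN1 v hv)
    have h1 := fineP_pt hFUN v hinjk P ψ hint hψ (hTℓ v hv ℓ hℓd) F c (hTc v hv) g hgf hdeg
      hlcv hsv n (hTn v hv) hℓn hrv hℓd h3F (d * a) (by
        rw [map_mul, map_mul, ha]
        have h5 : v.valuation L (P d) = 1 := hunit v (hTN2 v hv)
        rw [h5, one_mul]) k' hk'
    rw [map_mul, ← hdF, map_mul, Polynomial.map_mul, map_C] at h1
    exact h1.scale ((_root_.map_ne_zero (algebraMap k k')).2 hdk)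
  set E : Set R := {a : R | ¬ FineU n (algebraMap R k a) f} with hE
  set J := ∏ v ∈ T, v.asIdeal ^ 2 with hJ
  have hJ0 : J ≠ ⊥ := Finset.prod_ne_zero_iff.2 fun v _ => pow_ne_zero _ v.ne_bot
  have hfinJ : Finite (𝓞 L ⧸ J) := Ideal.finiteQuotientOfFreeOfNeBot _ hJ0
  -- the ideal
  let I : Ideal R :=
    { carrier := {r | ∀ v ∈ T, v.valuation L (P r) ≤ exp (-2)}
      add_mem' := by
        intro r s hr hs v hv
        rw [map_add]
        exact (Valuation.map_add _ _ _).trans (max_le (hr v hv) (hs v hv))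
      zero_mem' := by
        intro v hv
        rw [map_zero, map_zero]
        exact zero_le
      smul_mem' := by
        intro r s hs v hv
        rw [smul_eq_mul, map_mul, map_mul, mul_comm]
        exact mul_le_of_le_of_le_one (hs v hv) (hPint v hv r) }
  have hImem : ∀ r, r ∈ I ↔ ∀ v ∈ T, v.valuation L (P r) ≤ exp (-2) := fun r => Iff.rfl
  have hcl : ∀ r r' : R, ∀ y y' : 𝓞 L,
      (∀ v ∈ T, v.valuation L (P r - algebraMap (𝓞 L) L y) ≤ exp (-2)) →
      (∀ v ∈ T, v.valuation L (P r' - algebraMap (𝓞 L) L y') ≤ exp (-2)) →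
      (r - r' ∈ I ↔ y - y' ∈ J) := by
    intro r r' y y' h1 h2
    rw [hImem, hJ, mem_prod_iff]
    refine forall₂_congr fun v hv => ?_
    rw [← val_le_iff]
    constructor
    · intro h3
      have h5 : algebraMap (𝓞 L) L (y - y') = P (r - r') - ((P r - algebraMap (𝓞 L) L y) -
        (P r' - algebraMap (𝓞 L) L y')) := by
        rw [map_sub, map_sub]
        ring
      rw [h5]
      exact (Valuation.map_sub _ _ _).trans (max_le h3
        ((Valuation.map_sub _ _ _).trans (max_le (h1 v hv) (h2 v hv))))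
    · intro h3
      have h5 : P (r - r') = algebraMap (𝓞 L) L (y - y') + ((P r - algebraMap (𝓞 L) L y) -
        (P r' - algebraMap (𝓞 L) L y')) := by
        rw [map_sub, map_sub]
        ring
      rw [h5]
      exact (Valuation.map_add _ _ _).trans (max_le h3
        ((Valuation.map_sub _ _ _).trans (max_le (h1 v hv) (h2 v hv))))
  have hex : ∀ r : R, ∃ y : 𝓞 L,
      ∀ v ∈ T, v.valuation L (P r - algebraMap (𝓞 L) L y) ≤ exp (-2) := fun r =>
    exists_int_near T (P r) fun v hv => hPint v hv r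
  choose Y hY using hex
  have hsurj : ∀ y : 𝓞 L, ∃ r : R,
      ∀ v ∈ T, v.valuation L (P r - algebraMap (𝓞 L) L y) ≤ exp (-2) := by
    intro y
    obtain ⟨r0, hr0⟩ := hM y
    obtain ⟨j, hj⟩ := exists_pow_one T (M : 𝓞 L) hTM
    refine ⟨(M : R) ^ j * r0, fun v hv => ?_⟩
    have h1 : P ((M : R) ^ j * r0) - algebraMap (𝓞 L) L y =
        algebraMap (𝓞 L) L (((M : 𝓞 L) ^ (j + 1) - 1) * y) := by
      rw [map_mul, ← hr0, map_pow, map_intCast]
      simp only [map_mul, map_sub, map_pow, map_intCast, map_one]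
      ring
    rw [h1, val_le_iff]
    exact Ideal.mul_mem_right _ _ ((mem_prod_iff T _).1 hj v hv)
  let b : R ⧸ I → 𝓞 L ⧸ J := fun q => Ideal.Quotient.mk J (Y (Quotient.out q))
  have hout : ∀ q : R ⧸ I, Ideal.Quotient.mk I (Quotient.out q) = q := fun q =>
    Quotient.out_eq q
  have hbmk : ∀ (r : R) (y : 𝓞 L),
      (∀ v ∈ T, v.valuation L (P r - algebraMap (𝓞 L) L y) ≤ exp (-2)) →
      b (Ideal.Quotient.mk I r) = Ideal.Quotient.mk J y := by
    intro r y hry
    change Ideal.Quotient.mk J _ = _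
    rw [Ideal.Quotient.eq]
    refine (hcl _ r _ y (hY _) hry).1 ?_
    rw [← Ideal.Quotient.eq]
    exact hout _
  have hbinj : Function.Injective b := by
    intro q q' hqq
    have h1 := Ideal.Quotient.eq.1 hqq
    rw [← hcl (Quotient.out q) (Quotient.out q') _ _ (hY _) (hY _), ← Ideal.Quotient.eq, hout,
      hout] at h1
    exact h1
  have hbsurj : Function.Surjective b := by
    intro z
    obtain ⟨y, rfl⟩ := Ideal.Quotient.mk_surjective z
    obtain ⟨r, hr⟩ := hsurj y
    exact ⟨Ideal.Quotient.mk I r, hbmk r y hr⟩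
  have hfinI : Finite (R ⧸ I) := Finite.of_injective b hbinj
  have hcard : Nat.card (R ⧸ I) = Nat.card (𝓞 L ⧸ J) :=
    Nat.card_congr (Equiv.ofBijective b ⟨hbinj, hbsurj⟩)
  refine ⟨I, hfinI, ?_⟩
  have hD2 := Pool.Agent.W417.SecC.D2.partD2 L T
    {y : 𝓞 L | ∃ r ∈ E, ∀ v ∈ T, v.valuation L (P r - algebraMap (𝓞 L) L y) ≤ exp (-2)} (by
      rintro y ⟨r, hrE, hr⟩ v hv hyv
      by_contra hy2
      apply hrE
      apply hfine v hv r
      have h1 : v.valuation L (algebraMap (𝓞 L) L y) = exp (-1) := by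
        apply le_antisymm
        · rw [HeightOneSpectrum.valuation_of_algebraMap]
          exact (v.intValuation_le_pow_iff_mem y 1).2 (by rwa [pow_one])
        · by_contra h2
          rw [not_le] at h2
          exact hy2 ((val_le_iff v y).1 (lt_exp_neg_one _ h2))
      have h2 : P r = (P r - algebraMap (𝓞 L) L y) + algebraMap (𝓞 L) L y := by ring
      rw [h2, Valuation.map_add_eq_of_lt_right _ (by
        rw [h1]
        refine (hr v hv).trans_lt ?_
        rw [exp_lt_exp]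
        omega), h1])
  have hle : Set.ncard ((Ideal.Quotient.mk I) '' E) ≤ Set.ncard ((Ideal.Quotient.mk J) ''
      {y : 𝓞 L | ∃ r ∈ E, ∀ v ∈ T, v.valuation L (P r - algebraMap (𝓞 L) L y) ≤ exp (-2)}) := by
    refine Set.ncard_le_ncard_of_injOn b ?_ hbinj.injOn (Set.toFinite _)
    rintro _ ⟨r, hr, rfl⟩
    exact ⟨Y r, ⟨r, hr, hY r⟩, (hbmk r _ (hY r)).symm⟩
  rw [hcard]
  calc (Set.ncard ((Ideal.Quotient.mk I) '' E) : ℝ) ≤ _ := by exact_mod_cast hle
    _ ≤ _ := hD2
    _ ≤ ε * Nat.card (𝓞 L ⧸ J) := mul_le_mul_of_nonneg_right hTε.le (Nat.cast_nonneg _)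

theorem density_aux (n : ℕ) (hFUN : S_FUN) {R k : Type} [CommRing R] [IsDomain R] [Field k] [CharZero k]
    [Algebra R k] [IsFractionRing R k] (G : Finset R) (hG : Algebra.adjoin ℤ (G : Set R) = ⊤)
    {m : ℕ} {Q : Type} [Field Q] [Algebra (MvPolynomial (Fin m) ℚ) Q]
    [IsFractionRing (MvPolynomial (Fin m) ℚ) Q] [Algebra Q k]
    [Algebra (MvPolynomial (Fin m) ℚ) k] [IsScalarTower (MvPolynomial (Fin m) ℚ) Q k]
    [Algebra.IsAlgebraic Q k] [Algebra.EssFiniteType ℤ k] (f : k[X]) (hf : f.Separable)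
    (h3 : 3 ≤ f.natDegree)
    (hσ : ∃ σ : AlgebraicClosure k ≃ₐ[k] AlgebraicClosure k,
      ∀ θ : AlgebraicClosure k, aeval θ f = 0 → (σ ^ n) θ ≠ θ) (ε : ℝ) (hε : 0 < ε) :
    ∃ I : Ideal R, Finite (R ⧸ I) ∧
      (Set.ncard ((Ideal.Quotient.mk I) ''
        {a : R | ¬ FineU n (algebraMap R k a) f}) : ℝ) ≤ ε * Nat.card (R ⧸ I) := by
  classical
  have e4 : Algebra.EssFiniteType Q k := Algebra.EssFiniteType.of_comp ℤ Q k
  have hfin : FiniteDimensional Q k := Algebra.finite_of_essFiniteType_of_isAlgebraic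
  have hinjk : Function.Injective (algebraMap R k) := IsFractionRing.injective R k
  have hczQ : CharZero Q := charZero_of_injective_algebraMap
    (IsFractionRing.injective (MvPolynomial (Fin m) ℚ) Q)
  obtain ⟨d, hd, hcf⟩ := IsLocalization.integerNormalization_spec (nonZeroDivisors R) f
  set F := IsLocalization.integerNormalization (nonZeroDivisors R) f with hF
  have hd0 : d ≠ 0 := nonZeroDivisors.ne_zero hd
  have hdk : algebraMap R k d ≠ 0 := by
    rw [Ne, map_eq_zero_iff _ hinjk]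
    exact hd0
  have hdF : C (algebraMap R k d) * f = F.map (algebraMap R k) := by
    rw [hcf]
    ext i
    rw [coeff_smul, coeff_C_mul, Algebra.smul_def]
  have hdeg : F.natDegree = f.natDegree := by
    rw [← natDegree_map_eq_of_injective hinjk F, ← hdF, natDegree_C_mul hdk]
  have hFs : (F.map (algebraMap R k)).Separable := by
    rw [← hdF]
    exact Separable.unit_mul (isUnit_C.2 hdk.isUnit) hf
  have hF0 : F ≠ 0 := by
    rintro h0
    rw [h0, Polynomial.map_zero] at hFs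
    exact hFs.ne_zero rfl
  obtain ⟨σ, hσ⟩ := hσ
  have hσF : ∀ θ : AlgebraicClosure k, aeval θ (F.map (algebraMap R k)) = 0 → (σ ^ n) θ ≠ θ := by
    intro θ hθ
    rw [← hdF, map_mul, aeval_C] at hθ
    exact hσ θ ((mul_eq_zero.1 hθ).resolve_left ((_root_.map_ne_zero _).2 hdk))
  obtain ⟨α, hgen, hα⟩ := Pool.Agent.H298R2.Kuyk.exists_prim (MvPolynomial (Fin m) ℚ) Q k
  have hDNex : ∀ r : R, ∃ (D : MvPolynomial (Fin m) ℚ) (N : (MvPolynomial (Fin m) ℚ)[X]),
      D ≠ 0 ∧ algebraMap _ k D * algebraMap R k r = aeval α N := by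
    intro r
    obtain ⟨p, -, hp⟩ := H33.V4.exists_rep (Q := Q) α hgen (algebraMap R k r)
    obtain ⟨D, hD, hDp⟩ := IsLocalization.integerNormalization_spec
      (nonZeroDivisors (MvPolynomial (Fin m) ℚ)) p
    refine ⟨D, IsLocalization.integerNormalization (nonZeroDivisors (MvPolynomial (Fin m) ℚ)) p,
      nonZeroDivisors.ne_zero hD, ?_⟩
    rw [← aeval_map_algebraMap Q, hDp, Algebra.smul_def, map_mul, hp]
    congr 1
    rw [IsScalarTower.algebraMap_apply (MvPolynomial (Fin m) ℚ) Q k,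
      IsScalarTower.algebraMap_apply (MvPolynomial (Fin m) ℚ) Q Q[X]]
    simp
  choose D N hD hDN using hDNex
  obtain ⟨r0, s0, hs0, hα0⟩ := IsFractionRing.div_surjective (A := R) α
  have hs00 : s0 ≠ 0 := nonZeroDivisors.ne_zero hs0
  have hs0k : algebraMap R k s0 ≠ 0 := by
    rw [Ne, map_eq_zero_iff _ hinjk]
    exact hs00
  have hα1 : algebraMap R k s0 * α = algebraMap R k r0 := by
    rw [← hα0]
    field_simp
  obtain ⟨L, _, _, P, c, β, hβtop, hβ, hβ', hDP, hPα, hU, hsepP, hσP⟩ :=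
    exists_spec (Q := Q) hinjk α hα hgen G hG D N (fun r _ => hDN r) (fun r _ => hD r)
      {d, F.leadingCoeff, s0} (by
        intro u hu
        simp only [Finset.mem_insert, Finset.mem_singleton] at hu
        rcases hu with rfl | rfl | rfl
        · exact hd0
        · exact leadingCoeff_ne_zero.2 hF0
        · exact hs00) F hFs n σ hσF
  have hemb := exists_emb (Q := Q) α hα hgen P G hG D N (fun r _ => hDN r) c β hβ hβ' hDP
  have hM := exists_mult P β hβtop r0 s0 (hU s0 (by simp)) (hPα r0 s0 hα1)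
  have hmv : Countable (MvPolynomial G ℤ) := by
    rw [← Cardinal.mk_le_aleph0_iff]
    refine (MvPolynomial.cardinalMk_le_max (R := ℤ) (σ := G)).trans ?_
    simp only [max_le_iff, le_refl, and_true]
    exact ⟨Cardinal.mk_le_aleph0, Cardinal.mk_le_aleph0⟩
  have hcount : Countable R := by
    have hsurj : Function.Surjective (MvPolynomial.aeval (R := ℤ) (fun x : G => (x : R))) := by
      intro r
      have h9 : r ∈ Algebra.adjoin ℤ (G : Set R) := by
        rw [hG]
        exact Algebra.mem_top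
      rw [show (G : Set R) = Set.range (fun x : G => (x : R)) by simp,
        Algebra.adjoin_range_eq_range_aeval] at h9
      exact h9
    exact hsurj.countable
  have hcountk : Countable k := by
    have hsurj : Function.Surjective (fun p : R × R => algebraMap R k p.1 / algebraMap R k p.2) := by
      intro x
      obtain ⟨a, b, -, h⟩ := IsFractionRing.div_surjective (A := R) x
      exact ⟨(a, b), h⟩
    exact hsurj.countable
  exact density_of_point n hFUN hinjk f d F hdF hdk hdeg (by rwa [hdeg]) P (hU d (by simp))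
    (hU _ (by simp)) hsepP hσP hemb hM ε hε

theorem density_fg (n : ℕ) {R k : Type} [CommRing R] [IsDomain R] [CharZero R] [Algebra.FiniteType ℤ R]
    [Field k] [Algebra R k] [IsFractionRing R k] (f : k[X]) (hf : f.Separable)
    (h3 : 3 ≤ f.natDegree)
    (hσ : ∃ σ : AlgebraicClosure k ≃ₐ[k] AlgebraicClosure k,
      ∀ θ : AlgebraicClosure k, aeval θ f = 0 → (σ ^ n) θ ≠ θ) (ε : ℝ) (hε : 0 < ε) :
    ∃ I : Ideal R, Finite (R ⧸ I) ∧
      (Set.ncard ((Ideal.Quotient.mk I) ''
        {a : R | ¬ FineU n (algebraMap R k a) f}) : ℝ) ≤ ε * Nat.card (R ⧸ I) := by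
  classical
  have hcz : CharZero k := charZero_of_injective_algebraMap (IsFractionRing.injective R k)
  obtain ⟨G, hG⟩ := (inferInstance : Algebra.FiniteType ℤ R).out
  have e1 : Algebra.EssFiniteType R k := Algebra.EssFiniteType.of_isLocalization k (nonZeroDivisors R)
  have e2 : Algebra.EssFiniteType ℤ k := Algebra.EssFiniteType.comp ℤ R k
  have e3 : Algebra.EssFiniteType ℚ k := Algebra.EssFiniteType.of_comp ℤ ℚ k
  obtain ⟨s, hs⟩ := IntermediateField.fg_top ℚ k
  have halg0 : Algebra.IsAlgebraic (Algebra.adjoin ℚ (s : Set k)) k := by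
    rw [← IntermediateField.isAlgebraic_adjoin_iff_top, hs, Algebra.isAlgebraic_iff_isIntegral]
    exact Algebra.isIntegral_of_surjective IntermediateField.topEquiv.surjective
  obtain ⟨t, hts, ht⟩ := exists_isTranscendenceBasis_subset (R := ℚ) (s : Set k)
  lift t to Finset k using s.finite_toSet.subset hts
  let m := t.card
  let e : Fin m ≃ t := t.equivFin.symm
  let x : Fin m → k := fun i => (e i : k)
  have hx : IsTranscendenceBasis ℚ x := (isTranscendenceBasis_equiv e).2 ht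
  let _ : Algebra (MvPolynomial (Fin m) ℚ) k := (MvPolynomial.aeval x).toRingHom.toAlgebra
  have hinj : Function.Injective (algebraMap (MvPolynomial (Fin m) ℚ) k) := hx.1
  let _ : Algebra (FractionRing (MvPolynomial (Fin m) ℚ)) k :=
    (IsFractionRing.lift (K := FractionRing (MvPolynomial (Fin m) ℚ)) hinj).toAlgebra
  have htow : IsScalarTower (MvPolynomial (Fin m) ℚ) (FractionRing (MvPolynomial (Fin m) ℚ)) k :=
    IsScalarTower.of_algebraMap_eq fun p => (IsFractionRing.lift_algebraMap hinj p).symm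
  have hta : Algebra.IsAlgebraic (FractionRing (MvPolynomial (Fin m) ℚ)) k := by
    refine ⟨fun y => ?_⟩
    obtain ⟨p, hp, hpy⟩ := hx.isAlgebraic.isAlgebraic y
    have h1 : IsAlgebraic (MvPolynomial (Fin m) ℚ) y := by
      refine ⟨p.map hx.1.aevalEquiv.symm.toRingEquiv.toRingHom, ?_, ?_⟩
      · exact (Polynomial.map_ne_zero_iff
          hx.1.aevalEquiv.symm.toRingEquiv.injective).2 hp
      · rw [aeval_def, eval₂_map]
        rw [aeval_def] at hpy
        have h2 : (algebraMap (MvPolynomial (Fin m) ℚ) k).comp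
            hx.1.aevalEquiv.symm.toRingEquiv.toRingHom =
            algebraMap (Algebra.adjoin ℚ (Set.range x)) k := by
          ext1 z
          obtain ⟨p, rfl⟩ := hx.1.aevalEquiv.surjective z
          rw [hx.1.algebraMap_aevalEquiv]
          change MvPolynomial.aeval x (hx.1.aevalEquiv.symm (hx.1.aevalEquiv p)) = _
          rw [AlgEquiv.symm_apply_apply]
        rw [h2]
        exact hpy
    exact h1.extendScalars (IsFractionRing.injective _ _)
  exact density_aux n (Pool.Agent.Y674.PS.funct Pool.Agent.Y157.PS.a_inrt) (m := m)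
    (Q := FractionRing (MvPolynomial (Fin m) ℚ)) G hG f hf h3 hσ ε hε

end Pool.Agent.U218.UX
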