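import Pool.Agent.U218.UX.Loc
import Pool.Agent.W858.SG.Hensel
import Pool.Agent.N890.LP.PRM
import Pool.Agent.N890.LP.NW1
import Pool.Agent.N890.LP.DNS
import Pool.Agent.N890.LP.EMB

/-! # Finitely generated subfields of `E((T))` embed in the completions of `E`, for a countable field `E` -/

set_option autoImplicit false
set_option linter.all false

namespace Pool.Agent.U218.UX

open IsDedekindDomain WithZero Polynomial Pool.Agent.N890.LP

section

variable {B : Type} [CommRing B] [IsDedekindDomain B] {E : Type} [Field E] [Algebra B E]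
  [IsFractionRing B E] (w : HeightOneSpectrum B)

/-- the completion is a normed field -/
@[reducible] noncomputable def rk : (vc E w).RankOne :=
  Valuation.IsRankOneDiscrete.rankOne (vc E w) (e := 2) one_lt_two

/-- the normed field structure -/
@[reducible] noncomputable def nf : NontriviallyNormedField (w.adicCompletion E) :=
  letI := rk (E := E) w
  Valued.toNontriviallyNormedField (w.adicCompletion E) ℤᵐ⁰

attribute [local instance] nf

theorem norm_le (x y : w.adicCompletion E) : ‖x‖ ≤ ‖y‖ ↔ vc E w x ≤ vc E w y :=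
  letI := rk (E := E) w
  Valued.toNormedField.norm_le_iff

theorem norm_lt (x y : w.adicCompletion E) : ‖x‖ < ‖y‖ ↔ vc E w x < vc E w y := by
  rw [← not_le, norm_le, not_le]

theorem unc : Uncountable (w.adicCompletion E) := by
  rw [← not_countable_iff]
  intro hc
  have h1 := continuum_le_cardinal_of_nontriviallyNormedField (w.adicCompletion E)
  have h2 : Cardinal.mk (w.adicCompletion E) ≤ Cardinal.aleph0 := Cardinal.mk_le_aleph0
  exact absurd (h1.trans h2) (not_le.2 Cardinal.aleph0_lt_continuum)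

/-- **Newton's lemma** -/
theorem newton (h : (w.adicCompletion E)[X]) (hh : ∀ i, vc E w (h.coeff i) ≤ 1)
    (b : w.adicCompletion E) (hb : vc E w b ≤ 1) (π : w.adicCompletion E) (hπ : vc E w π < 1)
    (h0 : vc E w (h.eval b) ≤ vc E w π) (h1 : vc E w (h.derivative.eval b) = 1) :
    ∃ y, vc E w (y - b) ≤ vc E w π ∧ h.eval y = 0 := by
  set d := h.derivative.eval b with hd
  have hd0 : d ≠ 0 := by
    intro h2
    rw [h2, map_zero] at h1
    exact zero_ne_one h1
  let s : Set (w.adicCompletion E) := {y | ‖y - b‖ ≤ ‖π‖}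
  have hs : IsComplete s := by
    apply IsClosed.isComplete
    exact isClosed_le (by fun_prop) continuous_const
  have hint : ∀ y ∈ s, vc E w y ≤ 1 := by
    intro y hy
    have h2 : vc E w (y - b) ≤ vc E w π := (norm_le w _ _).1 hy
    have h3 : y = (y - b) + b := by ring
    rw [h3]
    exact (Valuation.map_add _ _ _).trans (max_le (h2.trans hπ.le) hb)
  let T : w.adicCompletion E → w.adicCompletion E := fun y => y - h.eval y / d
  have hT : ∀ y ∈ s, ∀ z ∈ s, vc E w (T y - T z) ≤ vc E w π * vc E w (y - z) := by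
    intro y hy z hz
    have h2 : T y - T z = -((h.eval y - h.eval z - d * (y - z)) / d) := by
      simp only [T]
      field_simp
      ring
    rw [h2, Valuation.map_neg, map_div₀, h1, div_one]
    exact Pool.Agent.W858.SG.diff_bound (vc E w) h hh b y z hb (hint y hy) (hint z hz) _
      ((norm_le w _ _).1 hy) ((norm_le w _ _).1 hz)
  have hbs : b ∈ s := by
    change ‖b - b‖ ≤ ‖π‖
    rw [sub_self, norm_zero]
    exact norm_nonneg _
  have hmaps : Set.MapsTo T s s := by
    intro y hy
    change ‖T y - b‖ ≤ ‖π‖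
    rw [norm_le]
    have h2 : T y - b = (T y - T b) + (T b - b) := by ring
    rw [h2]
    refine (Valuation.map_add _ _ _).trans (max_le ?_ ?_)
    · refine (hT y hy b hbs).trans ?_
      have h3 : vc E w (y - b) ≤ vc E w π := (norm_le w _ _).1 hy
      exact mul_le_of_le_one_right' (h3.trans hπ.le)
    · have h3 : T b - b = -(h.eval b / d) := by
        simp only [T]
        ring
      rw [h3, Valuation.map_neg, map_div₀, h1, div_one]
      exact h0
  have hπn : ‖π‖ < 1 := by
    rw [← norm_one (α := w.adicCompletion E)]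
    rw [← not_le, norm_le, not_le, map_one]
    exact hπ
  have hcon : ContractingWith ⟨‖π‖, norm_nonneg _⟩ (hmaps.restrict T s s) := by
    refine ⟨by exact_mod_cast hπn, ?_⟩
    apply LipschitzWith.of_dist_le_mul
    rintro ⟨y, hy⟩ ⟨z, hz⟩
    change dist (T y) (T z) ≤ ‖π‖ * dist y z
    rw [dist_eq_norm, dist_eq_norm, ← norm_mul, norm_le, map_mul]
    exact hT y hy z hz
  obtain ⟨y, hys, hfix, -⟩ := hcon.exists_fixedPoint' hs hmaps hbs (edist_ne_top _ _)
  refine ⟨y, (norm_le w _ _).1 hys, ?_⟩
  have h2 : y - h.eval y / d = y := hfix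
  have h3 : h.eval y / d = 0 := by
    have h4 : h.eval y / d = y - (y - h.eval y / d) := by ring
    rw [h4, h2, sub_self]
  exact (div_eq_zero_iff.1 h3).resolve_right hd0

/-- values of a polynomial with small coefficients -/
theorem eval_small (r : (w.adicCompletion E)[X]) (hr : ∀ i, vc E w (r.coeff i) < 1)
    (b : w.adicCompletion E) (hb : vc E w b ≤ 1) : vc E w (r.eval b) < 1 := by
  rw [eval_eq_sum_range]
  refine Valuation.map_sum_lt _ one_ne_zero fun i _ => ?_
  rw [map_mul, map_pow]
  exact mul_lt_of_lt_of_le_one (hr i) (pow_le_one' hb _)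

/-- an approximate root is near a root -/
theorem newton_approx (f : (w.adicCompletion E)[X]) (a : w.adicCompletion E)
    (h : ∀ i, 2 ≤ i → vc E w ((taylor a f).coeff 0) ^ (i - 1) * vc E w ((taylor a f).coeff i) <
      vc E w ((taylor a f).coeff 1) ^ i) :
    ∃ x, f.eval x = 0 := by
  by_cases h0 : (taylor a f).coeff 0 = 0
  · refine ⟨a, ?_⟩
    rwa [taylor_coeff_zero] at h0
  have h1 : (taylor a f).coeff 1 ≠ 0 := by
    intro h1
    have h2 := h 2 le_rfl
    rw [h1, map_zero, zero_pow two_ne_zero] at h2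
    exact absurd h2 (not_lt.2 zero_le)
  obtain ⟨c0, hc0⟩ : ∃ c0, c0 = (taylor a f).coeff 0 := ⟨_, rfl⟩
  obtain ⟨c1, hc1⟩ : ∃ c1, c1 = (taylor a f).coeff 1 := ⟨_, rfl⟩
  rw [← hc0] at h0
  rw [← hc1] at h1
  obtain ⟨g, hg⟩ : ∃ g : (w.adicCompletion E)[X],
      g = C c0⁻¹ * (taylor a f).comp (C (c0 / c1) * X) := ⟨_, rfl⟩
  have hgc : ∀ i, g.coeff i = c0⁻¹ * ((taylor a f).coeff i * (c0 / c1) ^ i) := by
    intro i
    rw [hg, coeff_C_mul, comp_C_mul_X_coeff]
  obtain ⟨r, hr⟩ : ∃ r : (w.adicCompletion E)[X], r = g - (1 + X) := ⟨_, rfl⟩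
  have hgr : g = 1 + X + r := by
    rw [hr]
    ring
  have hrc : ∀ i, vc E w (r.coeff i) < 1 := by
    intro i
    rw [hr, coeff_sub, coeff_add, hgc, coeff_one, coeff_X]
    rcases Nat.lt_or_ge i 2 with hi | hi
    · have hi' : i = 0 ∨ i = 1 := by omega
      rcases hi' with rfl | rfl
      · rw [← hc0]
        simp [h0]
      · rw [← hc1]
        have : c0⁻¹ * (c1 * (c0 / c1) ^ 1) - ((if (1 : ℕ) = 0 then (1 : w.adicCompletion E) else 0) +
            if (1 : ℕ) = 1 then 1 else 0) = 0 := by
          rw [if_neg one_ne_zero, if_pos rfl]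
          field_simp
          ring
        rw [this, map_zero]
        exact zero_lt_one
    · rw [if_neg (by omega), if_neg (by omega), add_zero, sub_zero]
      have h2 := h i hi
      rw [← hc0, ← hc1] at h2
      have hv0 : vc E w c0 ≠ 0 := (Valuation.ne_zero_iff _).2 h0
      have hv1 : vc E w c1 ≠ 0 := (Valuation.ne_zero_iff _).2 h1
      have h3 : c0⁻¹ * ((taylor a f).coeff i * (c0 / c1) ^ i) =
          (c0 ^ (i - 1) * (taylor a f).coeff i) / c1 ^ i := by
        obtain ⟨j, rfl⟩ : ∃ j, i = j + 1 := ⟨i - 1, by omega⟩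
        rw [Nat.add_sub_cancel, div_pow]
        field_simp
        ring
      rw [h3, map_div₀, map_mul, map_pow, map_pow]
      exact (div_lt_one₀ (pow_pos (zero_lt_iff.2 hv1) i)).2 h2
  have hneg : vc E w (-1 : w.adicCompletion E) = 1 := by
    rw [Valuation.map_neg, map_one]
  have hev : g.eval (-1) = r.eval (-1) := by
    rw [hgr, eval_add, eval_add, eval_one, eval_X]
    ring
  have hevd : g.derivative.eval (-1) = 1 + r.derivative.eval (-1) := by
    rw [hgr]
    simp
  have hd1 : vc E w (r.derivative.eval (-1)) < 1 := by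
    refine eval_small w _ (fun i => ?_) _ hneg.le
    rw [coeff_derivative, map_mul]
    refine mul_lt_of_lt_of_le_one (hrc _) ?_
    have h5 : vc E w ((i + 1 : ℕ) : w.adicCompletion E) ≤ 1 := natCast_mem (vc E w).integer (i + 1)
    push_cast at h5
    exact h5
  have hr1 : vc E w (r.eval (-1)) < 1 := eval_small w _ hrc _ hneg.le
  obtain ⟨y, -, hy⟩ := newton w g (by
      intro i
      rw [hgr, coeff_add]
      refine (Valuation.map_add _ _ _).trans (max_le ?_ (hrc i).le)
      rw [coeff_add, coeff_one, coeff_X]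
      refine (Valuation.map_add _ _ _).trans (max_le ?_ ?_)
      · split_ifs <;> simp
      · split_ifs <;> simp) (-1) hneg.le (r.eval (-1)) hr1 (by rw [hev]) (by
      rw [hevd, Valuation.map_add_eq_of_lt_left _ (by rwa [map_one]), map_one])
  refine ⟨c0 / c1 * y + a, ?_⟩
  rw [hg, eval_mul, eval_C, eval_comp, eval_mul, eval_C, eval_X, taylor_eval] at hy
  exact (mul_eq_zero.1 hy).resolve_left (inv_ne_zero h0)

/-- The finitely generated subfields of `E((T))` embed in the completions of `E`. -/
theorem emb [CharZero E] [Countable E] (S : Finset (LaurentSeries E)) :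
    Nonempty (IntermediateField.adjoin E (S : Set (LaurentSeries E)) →ₐ[E] w.adicCompletion E) := by
  have hunc : Uncountable (w.adicCompletion E) := unc w
  obtain ⟨v, hv⟩ : ∃ v : AbsoluteValue (w.adicCompletion E) ℝ, ∀ x, v x = ‖x‖ :=
    ⟨NormedField.toAbsoluteValue _, fun _ => rfl⟩
  have hna : ∀ x y, v (x + y) ≤ max (v x) (v y) := by
    intro x y
    rw [hv, hv, hv]
    rcases le_total (vc E w x) (vc E w y) with h | h
    · refine le_max_of_le_right ?_
      rw [norm_le]
      exact (Valuation.map_add _ _ _).trans (max_le h le_rfl)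
    · refine le_max_of_le_left ?_
      rw [norm_le]
      exact (Valuation.map_add _ _ _).trans (max_le le_rfl h)
  have hu : ∃ u : w.adicCompletion E, u ≠ 0 ∧ v u < 1 := by
    obtain ⟨x, hx⟩ := NormedField.exists_norm_lt_one (w.adicCompletion E)
    exact ⟨x, norm_pos_iff.1 hx.1, by rw [hv]; exact hx.2⟩
  obtain ⟨d, x, θ, P, hP0, hP1, hemb⟩ := PRM.t_PRM E (LaurentSeries E) S
  obtain ⟨t₀, a, hta⟩ := NW1.t_NW1 E (w.adicCompletion E) v hna hu d x θ P hP0 hP1
  obtain ⟨δ, hδ, hop⟩ := EMB.open_ineq (v := v) (t₀ := t₀) P a hta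
  obtain ⟨t, ht, htδ⟩ := DNS.t_DNS E (w.adicCompletion E) v hu d t₀ δ hδ
  have hin := hop t htδ
  obtain ⟨y, hy⟩ := newton_approx w
    (P.map (MvPolynomial.aeval (R := E) t : MvPolynomial (Fin d) E →+* w.adicCompletion E)) a
    (fun i hi => by
      have h1 := hin i hi
      rw [hv, hv, hv, ← norm_pow, ← norm_pow, ← norm_mul, norm_lt, map_mul, map_pow, map_pow] at h1
      exact h1)
  refine hemb (w.adicCompletion E) t y ht ?_
  rw [← Polynomial.eval_map]
  exact hy

end

end Pool.Agent.U218.UX
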