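import Pool.Agent.U218.UX.Pt

/-! # The maximal extension of exponent `m` -/

set_option autoImplicit false
set_option linter.all false

namespace Pool.Agent.U218.UX

open Polynomial

/-- The maximal Galois extension of `K` of exponent `m`: the elements of the algebraic closure fixed by
all `m`-th powers in the Galois group. -/
noncomputable def expField (m : ℕ) (K : Type) [Field K] : IntermediateField K (AlgebraicClosure K) :=
  IntermediateField.fixedField (Subgroup.closure (Set.range fun σ :
    AlgebraicClosure K ≃ₐ[K] AlgebraicClosure K => σ ^ m))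

theorem mem_expField {m : ℕ} {K : Type} [Field K] {x : AlgebraicClosure K} :
    x ∈ expField m K ↔ ∀ σ : AlgebraicClosure K ≃ₐ[K] AlgebraicClosure K, (σ ^ m) x = x := by
  unfold expField
  rw [IntermediateField.mem_fixedField_iff]
  constructor
  · intro h σ
    exact h _ (Subgroup.subset_closure ⟨σ, rfl⟩)
  · intro h g hg
    have h1 : Subgroup.closure (Set.range fun σ :
        AlgebraicClosure K ≃ₐ[K] AlgebraicClosure K => σ ^ m) ≤
        MulAction.stabilizer (AlgebraicClosure K ≃ₐ[K] AlgebraicClosure K) x := by
      rw [Subgroup.closure_le]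
      rintro _ ⟨σ, rfl⟩
      exact h σ
    exact h1 hg

theorem galois_expField (m : ℕ) (K : Type) [Field K] [CharZero K] : IsGalois K (expField m K) := by
  have hnormal : Normal K (expField m K) := by
    rw [IntermediateField.normal_iff_forall_map_le']
    intro τ
    rintro _ ⟨x, hx, rfl⟩
    change τ x ∈ expField m K
    have hx' : x ∈ expField m K := hx
    rw [mem_expField] at hx' ⊢
    intro σ
    have h1 := hx' (τ⁻¹ * σ * τ)
    have h2 : (τ⁻¹ * σ * τ) ^ m = τ⁻¹ * σ ^ m * τ := by
      have h3 := conj_pow (i := m) (a := τ⁻¹) (b := σ)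
      rwa [inv_inv] at h3
    rw [h2, AlgEquiv.mul_apply, AlgEquiv.mul_apply] at h1
    have h3 := congrArg τ h1
    rwa [← AlgEquiv.mul_apply, mul_inv_cancel, AlgEquiv.one_apply] at h3
  exact ⟨⟩

theorem pow_expField (m : ℕ) (K : Type) [Field K] [CharZero K]
    (g : expField m K ≃ₐ[K] expField m K) : g ^ m = 1 := by
  have := galois_expField m K
  obtain ⟨σ, rfl⟩ := AlgEquiv.restrictNormalHom_surjective (F := K) (K₁ := expField m K)
    (E := AlgebraicClosure K) g
  rw [← map_pow]
  ext x
  have h1 := AlgEquiv.restrictNormal_commutes (σ ^ m) (expField m K) x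
  change ((AlgEquiv.restrictNormal (σ ^ m) (expField m K) x : expField m K) : AlgebraicClosure K) = x
  refine h1.trans ?_
  exact mem_expField.1 x.2 σ

/-- the subfields of the maximal extension of exponent `m` are in the family -/
theorem adm_of_emb {m : ℕ} {K L : Type} [Field K] [CharZero K] [Field L] [Algebra K L]
    (i : L →ₐ[K] AlgebraicClosure K) (hi : ∀ (σ : AlgebraicClosure K ≃ₐ[K] AlgebraicClosure K)
      (x : L), (σ ^ m) (i x) = i x) : Adm m K L := by
  refine ⟨expField m K, inferInstance, inferInstance, galois_expField m K, pow_expField m K, ∅, ?_⟩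
  let i' : L →+* expField m K := (i : L →+* AlgebraicClosure K).codRestrict (expField m K)
    (fun x => mem_expField.2 fun σ => hi σ x)
  refine ⟨(algebraMap (expField m K) (LaurentSeries (expField m K))).comp i', fun x => ?_,
    fun x => ?_⟩
  · exact IntermediateField.algebraMap_mem _ _
  · rw [RingHom.comp_apply]
    congr 1
    apply Subtype.ext
    exact i.commutes x

/-- extensions of degree at most `M` are in the family of exponent `M!` -/
theorem pow_of_finrank {M : ℕ} {K L : Type} [Field K] [CharZero K] [Field L] [Algebra K L]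
    [FiniteDimensional K L] (hM : Module.finrank K L ≤ M) (i : L →ₐ[K] AlgebraicClosure K)
    (σ : AlgebraicClosure K ≃ₐ[K] AlgebraicClosure K) (x : L) :
    (σ ^ M.factorial) (i x) = i x := by
  classical
  -- the action on the embeddings
  let act : (AlgebraicClosure K ≃ₐ[K] AlgebraicClosure K) →*
      Equiv.Perm (L →ₐ[K] AlgebraicClosure K) :=
    { toFun := fun τ =>
        { toFun := fun j => (τ : AlgebraicClosure K →ₐ[K] AlgebraicClosure K).comp j
          invFun := fun j => ((τ⁻¹ : AlgebraicClosure K ≃ₐ[K] AlgebraicClosure K) :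
            AlgebraicClosure K →ₐ[K] AlgebraicClosure K).comp j
          left_inv := fun j => by
            ext y
            change τ⁻¹ (τ (j y)) = j y
            rw [← AlgEquiv.mul_apply, inv_mul_cancel, AlgEquiv.one_apply]
          right_inv := fun j => by
            ext y
            change τ (τ⁻¹ (j y)) = j y
            rw [← AlgEquiv.mul_apply, mul_inv_cancel, AlgEquiv.one_apply] }
      map_one' := by
        ext j y
        rfl
      map_mul' := fun τ τ' => by
        ext j y
        rfl }
  have hcard : Fintype.card (L →ₐ[K] AlgebraicClosure K) = Module.finrank K L :=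
    AlgHom.card K L (AlgebraicClosure K)
  have h1 : (act σ) ^ (Module.finrank K L).factorial = 1 := by
    rw [← hcard, ← Fintype.card_perm]
    exact pow_card_eq_one
  have h2 : (act σ) ^ M.factorial = 1 := by
    obtain ⟨c, hc⟩ := Nat.factorial_dvd_factorial hM
    rw [hc, pow_mul, h1, one_pow]
  rw [← map_pow] at h2
  have h3 := congrArg (fun π : Equiv.Perm (L →ₐ[K] AlgebraicClosure K) => π i x) h2
  exact h3

end Pool.Agent.U218.UX
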