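import Pool.Agent.U218.UX.Gal
import Pool.Agent.U218.UX.Tame

/-! # Valuations on infinite Galois extensions of bounded exponent -/

set_option autoImplicit false
set_option linter.all false

namespace Pool.Agent.U218.UX

open IsDedekindDomain Ideal WithZero

/-- elements of value at most one are fractions with denominator prime to the prime -/
theorem exists_frac {B E : Type*} [CommRing B] [IsDedekindDomain B] [Field E] [Algebra B E]
    [IsFractionRing B E] (w : HeightOneSpectrum B) (x : E) (hx : w.valuation E x ≤ 1) :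
    ∃ b s : B, s ∉ w.asIdeal ∧ x * algebraMap B E s = algebraMap B E b := by
  obtain ⟨a, c, hc, rfl⟩ := IsFractionRing.div_surjective (A := B) x
  have hc0 : c ≠ 0 := nonZeroDivisors.ne_zero hc
  have hinj : Function.Injective (algebraMap B E) := IsFractionRing.injective B E
  have hcE : algebraMap B E c ≠ 0 := by
    rw [Ne, map_eq_zero_iff _ hinj]
    exact hc0
  have hmax : w.asIdeal.IsMaximal := w.isMaximal
  obtain ⟨Q, hPQ, hI⟩ := Ideal.eq_prime_pow_mul_coprime (I := Ideal.span {c}) (by
    rw [Ne, Ideal.span_singleton_eq_bot]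
    exact hc0) w.asIdeal
  obtain ⟨m, hm⟩ : ∃ m, m = Multiset.count w.asIdeal
    (UniqueFactorizationMonoid.normalizedFactors (Ideal.span {c})) := ⟨_, rfl⟩
  rw [← hm] at hI
  obtain ⟨s, hsQ, hsP⟩ : ∃ s ∈ Q, s ∉ w.asIdeal := by
    by_contra hcon
    push Not at hcon
    have h1 : Q ≤ w.asIdeal := hcon
    rw [sup_eq_left.2 h1] at hPQ
    exact hmax.ne_top hPQ
  have hcm : c ∈ w.asIdeal ^ m := by
    have h1 : c ∈ Ideal.span {c} := Ideal.mem_span_singleton_self c
    rw [hI] at h1
    exact (Ideal.mul_le_left (I := w.asIdeal ^ m) (J := Q)) h1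
  have ham : a ∈ w.asIdeal ^ m := by
    rw [← w.intValuation_le_pow_iff_mem] at hcm ⊢
    refine le_trans ?_ hcm
    rw [map_div₀, w.valuation_of_algebraMap, w.valuation_of_algebraMap] at hx
    have h2 : w.intValuation c ≠ 0 := w.intValuation_ne_zero c hc0
    exact (div_le_one₀ (zero_lt_iff.2 h2)).1 hx
  have h3 : a * s ∈ Ideal.span {c} := by
    rw [hI]
    exact Ideal.mul_mem_mul ham hsQ
  obtain ⟨b, hb⟩ := Ideal.mem_span_singleton.1 h3
  refine ⟨b, s, hsP, ?_⟩
  rw [div_mul_eq_mul_div, ← map_mul, hb, map_mul]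
  field_simp

/-- A valuation whose values are, up to `n`-th powers, values on a subfield where it is discrete. -/
theorem exists_descend {k E Γ : Type*} [Field k] [Field E] [Algebra k E]
    [LinearOrderedCommGroupWithZero Γ] (W : Valuation E Γ) (v' : Valuation k ℤᵐ⁰) (n : ℕ)
    (hn : n ≠ 0)
    (h1 : ∀ c c' : k, W (algebraMap k E c) ≤ W (algebraMap k E c') ↔ v' c ≤ v' c')
    (h2 : ∀ x : E, ∃ c : k, W x ^ n = W (algebraMap k E c)) :
    ∃ V : Valuation E ℤᵐ⁰, (∀ x y, V x ≤ V y ↔ W x ≤ W y) ∧ ∀ c, V (algebraMap k E c) = v' c ^ n := by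
  classical
  choose C hC using h2
  have h1' : ∀ c c' : k, W (algebraMap k E c) = W (algebraMap k E c') ↔ v' c = v' c' := by
    intro c c'
    rw [le_antisymm_iff, le_antisymm_iff, h1, h1]
  have hle : ∀ x y : E, v' (C x) ≤ v' (C y) ↔ W x ≤ W y := by
    intro x y
    rw [← h1, ← hC, ← hC]
    exact pow_le_pow_iff_left₀ zero_le zero_le hn
  have z0 : v' (C 0) = 0 := by
    have h3 : W (algebraMap k E 0) = W (algebraMap k E (C 0)) := by
      rw [← hC 0, map_zero, map_zero, zero_pow hn]
    rw [← map_zero v', eq_comm]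
    exact (h1' _ _).1 h3
  have z1 : v' (C 1) = 1 := by
    have h3 : W (algebraMap k E 1) = W (algebraMap k E (C 1)) := by
      rw [← hC 1, map_one, map_one, one_pow]
    rw [← map_one v', eq_comm]
    exact (h1' _ _).1 h3
  have zm : ∀ x y : E, v' (C (x * y)) = v' (C x) * v' (C y) := by
    intro x y
    have h3 := hC (x * y)
    rw [map_mul, mul_pow, hC, hC, ← map_mul, ← map_mul] at h3
    rw [← map_mul, eq_comm]
    exact (h1' _ _).1 h3
  have za : ∀ x y : E, v' (C (x + y)) ≤ max (v' (C x)) (v' (C y)) := by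
    intro x y
    rcases le_total (W x) (W y) with h | h
    · refine le_max_of_le_right ((hle _ _).2 ?_)
      exact (Valuation.map_add _ _ _).trans (max_le h le_rfl)
    · refine le_max_of_le_left ((hle _ _).2 ?_)
      exact (Valuation.map_add _ _ _).trans (max_le le_rfl h)
  let V : Valuation E ℤᵐ⁰ :=
    { toFun := fun x => v' (C x)
      map_zero' := z0
      map_one' := z1
      map_mul' := zm
      map_add_le_max' := za }
  refine ⟨V, fun x y => hle x y, fun c => ?_⟩
  change v' (C (algebraMap k E c)) = v' c ^ n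
  have h3 := hC (algebraMap k E c)
  rw [← map_pow, ← map_pow] at h3
  rw [← map_pow, eq_comm]
  exact (h1' _ _).1 h3

/-- a valuation ring of a field above `v`, on a finite Galois extension of exponent `n` -/
theorem level {A k E' E : Type} [CommRing A] [IsDedekindDomain A] [Field k] [Algebra A k]
    [IsFractionRing A k] [Field E'] [Algebra k E'] [FiniteDimensional k E'] [IsGalois k E']
    [Field E] [Algebra k E] (j : E' →ₐ[k] E) (O : ValuationSubring E) (n : ℕ)
    (hn : ∀ g : E' ≃ₐ[k] E', g ^ n = 1) (v : HeightOneSpectrum A) [Finite (A ⧸ v.asIdeal)]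
    (hnv : (n : A) ∉ v.asIdeal)
    (hW1 : ∀ c : k, v.valuation k c ≤ 1 → O.valuation (algebraMap k E c) ≤ 1)
    (hW2 : ∀ c : k, v.valuation k c < 1 → O.valuation (algebraMap k E c) < 1) :
    (∀ x : E', ∃ c : k, O.valuation (j x) ^ n = O.valuation (algebraMap k E c)) ∧
    ∀ x : E', O.valuation (j x) ≤ 1 →
      O.valuation (j (x ^ (Nat.card (A ⧸ v.asIdeal) ^ n) - x)) < 1 := by
  classical
  have hinjA : Function.Injective (algebraMap A k) := IsFractionRing.injective A k
  let _ : Algebra A E' := ((algebraMap k E').comp (algebraMap A k)).toAlgebra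
  have : IsScalarTower A k E' := IsScalarTower.of_algebraMap_eq fun _ => rfl
  let B := integralClosure A E'
  have hB1 : IsFractionRing B E' := integralClosure.isFractionRing_of_finite_extension k E'
  have hB2 : IsDedekindDomain B := integralClosure.isDedekindDomain A k E'
  have hB3 : Module.Finite A B := IsIntegralClosure.finite A k E' B
  have hinjE : Function.Injective (algebraMap A E') :=
    (algebraMap k E').injective.comp hinjA
  have hinjB : Function.Injective (algebraMap A B) := by
    intro x y hxy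
    exact hinjE (congrArg (algebraMap B E') hxy)
  have hB4 : FaithfulSMul A B := (faithfulSMul_iff_algebraMap_injective A B).2 hinjB
  have hB5 : Module.IsTorsionFree A B := inferInstance
  have hmaxv : v.asIdeal.IsMaximal := v.isMaximal
  -- the ring `A` in `O`
  let iA : A →+* O := ((algebraMap k E).comp (algebraMap A k)).codRestrict O.toSubring (fun a => by
    change algebraMap k E (algebraMap A k a) ∈ O
    rw [← O.valuation_le_one_iff]
    exact hW1 _ (v.valuation_le_one a))
  have hjmem : ∀ b : B, j (b : E') ∈ O := by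
    intro b
    have h1 : (algebraMap A E').IsIntegralElem (b : E') := b.2
    have h2 : ((j : E' →+* E).comp (algebraMap A E')).IsIntegralElem (j (b : E')) := by
      obtain ⟨p, hp, hpx⟩ := h1
      refine ⟨p, hp, ?_⟩
      have h3 := congrArg (j : E' →+* E) hpx
      rw [Polynomial.hom_eval₂, map_zero] at h3
      exact h3
    have h3 : (j : E' →+* E).comp (algebraMap A E') = (algebraMap O E).comp iA := by
      ext a
      change j (algebraMap k E' (algebraMap A k a)) = algebraMap k E (algebraMap A k a)
      rw [AlgHom.commutes]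
    rw [h3] at h2
    have h4 : IsIntegral O (j (b : E')) := RingHom.IsIntegralElem.of_comp h2
    obtain ⟨y, hy⟩ := IsIntegrallyClosed.algebraMap_eq_of_integral h4
    rw [← hy]
    exact y.2
  let jB : B →+* O := ((j : E' →+* E).comp (algebraMap B E')).codRestrict O.toSubring
    (fun b => hjmem b)
  have hjB : ∀ b, ((jB b : O) : E) = j (b : E') := fun _ => rfl
  let P : Ideal B := (IsLocalRing.maximalIdeal O).comap jB
  have hPprime : P.IsPrime := Ideal.comap_isPrime jB _
  have hPmem : ∀ b : B, b ∈ P ↔ O.valuation (j (b : E')) < 1 := by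
    intro b
    exact O.valuation_lt_one_iff (jB b)
  have hPA : ∀ a : A, algebraMap A B a ∈ P ↔ a ∈ v.asIdeal := by
    intro a
    rw [hPmem]
    have h1 : j ((algebraMap A B a : B) : E') = algebraMap k E (algebraMap A k a) := by
      change j (algebraMap k E' (algebraMap A k a)) = _
      rw [AlgHom.commutes]
    rw [h1]
    constructor
    · intro h2
      by_contra h3
      have h4 : v.valuation k (algebraMap A k a) = 1 :=
        (HeightOneSpectrum.valuation_eq_one_iff_notMem v).2 h3
      have h5 : O.valuation (algebraMap k E (algebraMap A k a)⁻¹) ≤ 1 := hW1 _ (by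
        rw [map_inv₀, h4, inv_one])
      rw [map_inv₀, map_inv₀] at h5
      by_cases h0 : algebraMap A k a = 0
      · rw [h0, map_zero] at h4
        exact zero_ne_one h4
      · have h6 : O.valuation (algebraMap k E (algebraMap A k a)) ≠ 0 := by
          rw [Valuation.ne_zero_iff]
          exact (_root_.map_ne_zero (algebraMap k E)).2 h0
        exact absurd ((one_lt_inv₀ (zero_lt_iff.2 h6)).2 h2) (not_lt.2 h5)
    · intro h2
      exact hW2 _ ((HeightOneSpectrum.valuation_lt_one_iff_mem v a).2 h2)
  have hPl : P.LiesOver v.asIdeal := ⟨by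
    ext a
    exact (hPA a).symm⟩
  have hP0 : P ≠ ⊥ := Ideal.ne_bot_of_liesOver_of_ne_bot v.ne_bot P
  let w : HeightOneSpectrum B := ⟨P, hPprime, hP0⟩
  have hwl : w.asIdeal.LiesOver v.asIdeal := hPl
  have hunder : w.asIdeal.under A = v.asIdeal := hPl.over.symm
  have hfin : Finite (B ⧸ w.asIdeal) := by
    have : Module.Finite (A ⧸ v.asIdeal) (B ⧸ w.asIdeal) := inferInstance
    exact Module.finite_of_finite (A ⧸ v.asIdeal)
  have hs1 : ∀ s : B, s ∉ w.asIdeal → O.valuation (j (s : E')) = 1 := by
    intro s hs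
    refine le_antisymm ((O.valuation_le_one_iff _).2 (hjmem s)) ?_
    rw [← not_lt]
    intro h1
    exact hs ((hPmem s).2 h1)
  have hle : ∀ x : E', w.valuation E' x ≤ 1 → O.valuation (j x) ≤ 1 := by
    intro x hx
    obtain ⟨b, s, hs, hb⟩ := exists_frac w x hx
    have h1 := congrArg (fun z => O.valuation (j z)) hb
    simp only [map_mul] at h1
    have h2 : O.valuation (j (algebraMap B E' s)) = 1 := hs1 s hs
    rw [h2, mul_one] at h1
    rw [h1]
    exact (O.valuation_le_one_iff _).2 (hjmem b)
  have hlt : ∀ x : E', w.valuation E' x < 1 → O.valuation (j x) < 1 := by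
    intro x hx
    obtain ⟨b, s, hs, hb⟩ := exists_frac w x hx.le
    have h1 := congrArg (fun z => O.valuation (j z)) hb
    simp only [map_mul] at h1
    have h2 : O.valuation (j (algebraMap B E' s)) = 1 := hs1 s hs
    rw [h2, mul_one] at h1
    rw [h1]
    refine (hPmem b).1 ?_
    have h3 : w.valuation E' (algebraMap B E' s) = 1 :=
      (HeightOneSpectrum.valuation_eq_one_iff_notMem w).2 hs
    have h4 : w.valuation E' (algebraMap B E' b) < 1 := by
      rw [← hb, map_mul, h3, mul_one]
      exact hx
    exact (HeightOneSpectrum.valuation_lt_one_iff_mem w b).1 h4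
  have hle' : ∀ x : E', O.valuation (j x) ≤ 1 → w.valuation E' x ≤ 1 := by
    intro x hx
    by_contra h1
    rw [not_le] at h1
    have hx0 : x ≠ 0 := by
      rintro rfl
      rw [map_zero] at h1
      exact absurd h1 (not_lt.2 zero_le)
    have h2 : w.valuation E' x⁻¹ < 1 := by
      rw [map_inv₀]
      exact inv_lt_one_of_one_lt₀ h1
    have h3 := hlt _ h2
    rw [map_inv₀, map_inv₀] at h3
    have h4 : O.valuation (j x) ≠ 0 := by
      rw [Valuation.ne_zero_iff]
      exact (_root_.map_ne_zero j).2 hx0
    exact absurd ((inv_lt_one₀ (zero_lt_iff.2 h4)).1 h3) (not_lt.2 hx)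
  refine ⟨?_, ?_⟩
  · intro x
    have hn0 : n ≠ 0 := by
      rintro rfl
      apply hnv
      rw [Nat.cast_zero]
      exact v.asIdeal.zero_mem
    by_cases hx : x = 0
    · refine ⟨0, ?_⟩
      rw [hx, map_zero, map_zero, map_zero, map_zero, zero_pow hn0]
    obtain ⟨c₁, hc₁⟩ := tame (k := k) (E := E') n hn v w hnv
    obtain ⟨ϖ, hϖ⟩ := v.valuation_exists_uniformizer k
    have hwx : w.valuation E' x ≠ 0 := (Valuation.ne_zero_iff _).2 hx
    obtain ⟨i, hi⟩ : ∃ i : ℤ, w.valuation E' x = exp i := ⟨_, (exp_log hwx).symm⟩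
    have hϖ0 : ϖ ≠ 0 := by
      rintro rfl
      rw [map_zero] at hϖ
      exact exp_ne_zero hϖ.symm
    obtain ⟨c, hc⟩ : ∃ c : k, c = ϖ ^ (-(i * c₁)) := ⟨_, rfl⟩
    have hc0 : c ≠ 0 := by
      rw [hc]
      exact zpow_ne_zero _ hϖ0
    have h1 : w.valuation E' (x ^ n / algebraMap k E' c) = 1 := by
      rw [map_div₀, map_pow, hi, ← HeightOneSpectrum.valuation_liesOver E' v w, hc, map_zpow₀, hϖ,
        ← exp_zsmul, ← exp_nsmul, ← exp_nsmul, ← exp_sub, ← exp_zero]
      congr 1
      simp only [nsmul_eq_mul, smul_eq_mul]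
      nth_rewrite 1 [hc₁]
      push_cast
      ring
    have h2 : O.valuation (j (x ^ n / algebraMap k E' c)) = 1 := by
      refine le_antisymm (hle _ h1.le) ?_
      have h3 := hle (x ^ n / algebraMap k E' c)⁻¹ (by rw [map_inv₀, h1, inv_one])
      rw [map_inv₀, map_inv₀] at h3
      have h4 : O.valuation (j (x ^ n / algebraMap k E' c)) ≠ 0 := by
        rw [Valuation.ne_zero_iff]
        refine (_root_.map_ne_zero j).2 (div_ne_zero (pow_ne_zero _ hx) ?_)
        exact (_root_.map_ne_zero (algebraMap k E')).2 hc0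
      exact (inv_le_one₀ (zero_lt_iff.2 h4)).1 h3
    refine ⟨c, ?_⟩
    rw [map_div₀, AlgHom.commutes, map_pow, map_div₀, map_pow] at h2
    have h5 : O.valuation (algebraMap k E c) ≠ 0 := by
      rw [Valuation.ne_zero_iff]
      exact (_root_.map_ne_zero (algebraMap k E)).2 hc0
    exact (div_eq_one_iff_eq h5).1 h2
  · intro x hx
    apply hlt
    have hx' := hle' x hx
    obtain ⟨b, hb⟩ := w.exists_valuation_sub_lt_of_integer hx' 1
    have hb1 : w.valuation E' (algebraMap B E' b - x) < 1 := hb
    set N := Nat.card (A ⧸ v.asIdeal) ^ n with hN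
    have h1 := frob A k E' n hn w.asIdeal b
    rw [hunder] at h1
    have h2 : w.valuation E' (algebraMap B E' b ^ N - algebraMap B E' b) < 1 := by
      rw [← map_pow, ← map_sub]
      exact (HeightOneSpectrum.valuation_lt_one_iff_mem w _).2 h1
    obtain ⟨y, hy⟩ : ∃ y : E', w.valuation E' y ≤ 1 ∧
        x ^ N - algebraMap B E' b ^ N = (x - algebraMap B E' b) * y := by
      refine ⟨∑ i ∈ Finset.range N, x ^ i * algebraMap B E' b ^ (N - 1 - i), ?_, ?_⟩
      · refine Valuation.map_sum_le _ fun i _ => ?_
        rw [map_mul, map_pow, map_pow]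
        exact mul_le_one' (pow_le_one' hx' _) (pow_le_one' (w.valuation_le_one b) _)
      · rw [mul_comm]
        exact ((Commute.all x (algebraMap B E' b)).geom_sum₂_mul N).symm
    have h3 : x ^ N - x = (x - algebraMap B E' b) * y +
        (algebraMap B E' b ^ N - algebraMap B E' b) + (algebraMap B E' b - x) := by
      rw [← hy.2]
      ring
    rw [h3]
    refine (Valuation.map_add _ _ _).trans_lt (max_lt ((Valuation.map_add _ _ _).trans_lt
      (max_lt ?_ h2)) hb1)
    rw [map_mul, Valuation.map_sub_swap]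
    exact mul_lt_of_lt_of_le_one hb1 hy.1

/-- **Discrete valuations on infinite Galois extensions of exponent `n`.** -/
theorem exists_val {A k E : Type} [CommRing A] [IsDedekindDomain A] [Field k] [Algebra A k]
    [IsFractionRing A k] [Field E] [Algebra k E] [IsGalois k E] (n : ℕ)
    (hn : ∀ g : E ≃ₐ[k] E, g ^ n = 1) (v : HeightOneSpectrum A) [Finite (A ⧸ v.asIdeal)]
    (hnv : (n : A) ∉ v.asIdeal) :
    ∃ V : Valuation E ℤᵐ⁰, (∀ x : k, V (algebraMap k E x) = v.valuation k x ^ n) ∧
      ∀ x : E, V x ≤ 1 → V (x ^ (Nat.card (A ⧸ v.asIdeal) ^ n) - x) < 1 := by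
  classical
  have hn0 : n ≠ 0 := by
    rintro rfl
    apply hnv
    rw [Nat.cast_zero]
    exact v.asIdeal.zero_mem
  obtain ⟨O, hO, hloc⟩ := IsLocalRing.exists_factor_valuationRing
    ((algebraMap k E).comp (v.valuation k).valuationSubring.subtype)
  have hW1 : ∀ c : k, v.valuation k c ≤ 1 → O.valuation (algebraMap k E c) ≤ 1 := by
    intro c hc
    rw [O.valuation_le_one_iff]
    exact hO ⟨c, hc⟩
  have hW2 : ∀ c : k, v.valuation k c < 1 → O.valuation (algebraMap k E c) < 1 := by
    intro c hc
    have h1 : ¬ IsUnit (⟨c, hc.le⟩ : (v.valuation k).valuationSubring) := by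
      intro h
      have h2 := (Valuation.Integers.isUnit_iff_valuation_eq_one
        (Valuation.valuationSubring.integers (v.valuation k))).1 h
      exact hc.ne h2
    rw [← isUnit_map_iff (((algebraMap k E).comp
      (v.valuation k).valuationSubring.subtype).codRestrict O.toSubring hO)] at h1
    have h3 := (O.valuation_lt_one_iff (((algebraMap k E).comp
      (v.valuation k).valuationSubring.subtype).codRestrict O.toSubring hO ⟨c, hc.le⟩)).1
      ((IsLocalRing.mem_maximalIdeal _).2 h1)
    exact h3
  have hW : ∀ c c' : k, O.valuation (algebraMap k E c) ≤ O.valuation (algebraMap k E c') ↔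
      v.valuation k c ≤ v.valuation k c' := by
    intro c c'
    by_cases h0 : c' = 0
    · rw [h0, map_zero, map_zero, map_zero, le_zero_iff, le_zero_iff, Valuation.zero_iff,
        Valuation.zero_iff, map_eq_zero]
    have hE0 : O.valuation (algebraMap k E c') ≠ 0 := by
      rw [Valuation.ne_zero_iff]
      exact (_root_.map_ne_zero (algebraMap k E)).2 h0
    have hk0 : v.valuation k c' ≠ 0 := (Valuation.ne_zero_iff _).2 h0
    rw [← div_le_one₀ (zero_lt_iff.2 hE0), ← div_le_one₀ (zero_lt_iff.2 hk0), ← map_div₀,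
      ← map_div₀, ← map_div₀]
    constructor
    · intro h1
      by_contra h2
      rw [not_le] at h2
      have h3 : v.valuation k (c / c')⁻¹ < 1 := by
        rw [map_inv₀]
        exact inv_lt_one_of_one_lt₀ h2
      have h4 := hW2 _ h3
      rw [map_inv₀, map_inv₀] at h4
      have h5 : O.valuation (algebraMap k E (c / c')) ≠ 0 := by
        rw [Valuation.ne_zero_iff]
        refine (_root_.map_ne_zero (algebraMap k E)).2 ?_
        intro h6
        rw [h6, map_zero] at h2
        exact absurd h2 (not_lt.2 zero_le)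
      exact absurd ((inv_lt_one₀ (zero_lt_iff.2 h5)).1 h4) (not_lt.2 h1)
    · exact hW1 _
  -- reduction to finite extensions
  have hfin : ∀ x : E, (∃ c : k, O.valuation x ^ n = O.valuation (algebraMap k E c)) ∧
      (O.valuation x ≤ 1 →
        O.valuation (x ^ (Nat.card (A ⧸ v.asIdeal) ^ n) - x) < 1) := by
    intro x
    obtain ⟨L, hL⟩ : ∃ L : FiniteGaloisIntermediateField k E, x ∈ L.toIntermediateField :=
      ⟨FiniteGaloisIntermediateField.adjoin k {x},
        FiniteGaloisIntermediateField.subset_adjoin k {x} rfl⟩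
    have h1 : FiniteDimensional k L.toIntermediateField := L.finiteDimensional
    have h2 : IsGalois k L.toIntermediateField := L.isGalois
    have h3 : ∀ g : L.toIntermediateField ≃ₐ[k] L.toIntermediateField, g ^ n = 1 := by
      intro g
      obtain ⟨g', rfl⟩ := AlgEquiv.restrictNormalHom_surjective (F := k) (K₁ := L.toIntermediateField)
        (E := E) g
      rw [← map_pow, hn, map_one]
    obtain ⟨h4, h5⟩ := level L.toIntermediateField.val O n h3 v hnv hW1 hW2
    exact ⟨h4 ⟨x, hL⟩, h5 ⟨x, hL⟩⟩
  obtain ⟨V, hV, hVk⟩ := exists_descend O.valuation (v.valuation k) n hn0 hW fun x => (hfin x).1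
  refine ⟨V, hVk, fun x hx => ?_⟩
  have h1 : O.valuation x ≤ 1 := by
    rw [← map_one V, hV, map_one] at hx
    exact hx
  have h2 := (hfin x).2 h1
  rw [← not_le, ← map_one V, hV, not_le, map_one]
  exact h2

end Pool.Agent.U218.UX
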