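import Pool.Agent.Y141.PS.FG
import Pool.Agent.U218.UX.Gal

/-! # Superelliptic twists over all fields inside completions of Galois extensions of bounded exponent -/

set_option autoImplicit false
set_option linter.all false

namespace Pool.Agent.U218.UX

open IsDedekindDomain WithZero Polynomial
open Pool.Agent.Y157.PS (S_FUN FineP)

/-- the valuation of the completion -/
noncomputable abbrev vc {B : Type} [CommRing B] [IsDedekindDomain B] (E : Type) [Field E]
    [Algebra B E] [IsFractionRing B E] (w : HeightOneSpectrum B) :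
    Valuation (w.adicCompletion E) ℤᵐ⁰ := Valued.v

section

variable {B : Type} [CommRing B] [IsDedekindDomain B] {E : Type} [Field E] [Algebra B E]
  [IsFractionRing B E] (w : HeightOneSpectrum B)

theorem vc_algebraMap (x : E) : vc E w (algebraMap E (w.adicCompletion E) x) = w.valuation E x :=
  Pool.Agent.H723R3.valued_algebraMap w x

theorem mem_max (x : (vc E w).valuationSubring) :
    x ∈ IsLocalRing.maximalIdeal (vc E w).valuationSubring ↔ vc E w (x : w.adicCompletion E) < 1 :=
  Valuation.mem_maximalIdeal_iff (v := vc E w)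

/-- the residue field of the completion is the one of the prime -/
theorem exists_residue : ∃ θ : (B ⧸ w.asIdeal) →+*
    IsLocalRing.ResidueField (vc E w).valuationSubring, Function.Surjective θ := by
  let i : B →+* (vc E w).valuationSubring :=
    { toFun := fun r => ⟨algebraMap B (w.adicCompletion E) r,
        Pool.Agent.H723R3.algebraMap_R_mem w r⟩
      map_one' := Subtype.ext (map_one _)
      map_mul' := fun y z => Subtype.ext (map_mul _ _ _)
      map_zero' := Subtype.ext (map_zero _)
      map_add' := fun y z => Subtype.ext (map_add _ _ _) }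
  have hker : ∀ r ∈ w.asIdeal, ((IsLocalRing.residue (vc E w).valuationSubring).comp i) r = 0 := by
    intro r hr
    rw [RingHom.comp_apply, IsLocalRing.residue_eq_zero_iff, mem_max]
    change vc E w (algebraMap B (w.adicCompletion E) r) < 1
    rw [IsScalarTower.algebraMap_apply B E (w.adicCompletion E), vc_algebraMap]
    exact (HeightOneSpectrum.valuation_lt_one_iff_mem w r).2 hr
  refine ⟨Ideal.Quotient.lift w.asIdeal _ hker, ?_⟩
  refine Ideal.Quotient.lift_surjective_of_surjective _ _ ?_
  intro y
  obtain ⟨x, rfl⟩ := IsLocalRing.residue_surjective y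
  obtain ⟨r, hr⟩ := Pool.Agent.H723R3.exists_approx_int (R := B) w x.2 1
  refine ⟨r, ?_⟩
  rw [RingHom.comp_apply, ← sub_eq_zero, ← map_sub, IsLocalRing.residue_eq_zero_iff, mem_max]
  exact hr

end

/-- The local theorem over all fields inside a completion of a Galois extension of exponent `n`. -/
theorem fineP_gal (hFUN : S_FUN) {ℓ : ℕ} [Fact ℓ.Prime] {A k : Type} [CommRing A]
    [IsDedekindDomain A] [Field k] [CharZero k] [Algebra A k] [IsFractionRing A k]
    (v₀ : HeightOneSpectrum A) [Finite (A ⧸ v₀.asIdeal)]
    (h2 : (ℓ : A) ∉ v₀.asIdeal) (gB : A[X]) (hlc : gB.leadingCoeff ∉ v₀.asIdeal)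
    (hs : (gB.map (Ideal.Quotient.mk v₀.asIdeal)).Separable) (hdvd : ℓ ∣ gB.natDegree)
    (h3 : 3 ≤ gB.natDegree) (n : ℕ) (hℓn : ¬ ℓ ∣ n)
    (hroot : ∀ (κ : Type) [Field κ] (j : A →+* κ) (r : κ), RingHom.ker j = v₀.asIdeal →
      r ^ (Nat.card (A ⧸ v₀.asIdeal) ^ n) = r → gB.eval₂ j r ≠ 0)
    (a : k) (m : ℤ) (hm : ¬ (ℓ : ℤ) ∣ m) (ha : v₀.valuation k a = exp m)
    (E : Type) [Field E] [Algebra k E] [FiniteDimensional k E] [IsGalois k E]
    (hE : ∀ σ : E ≃ₐ[k] E, σ ^ n = 1) :
    ∃ (B : Type) (_ : CommRing B) (_ : IsDedekindDomain B) (_ : Algebra B E)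
      (_ : IsFractionRing B E) (w : HeightOneSpectrum B),
      Finite (B ⧸ w.asIdeal) ∧
      ∀ (k' : Type) [Field k'] [CharZero k'] (i : k →+* k') (φ : k' →+* w.adicCompletion E),
        (∀ x, φ (i x) = algebraMap E (w.adicCompletion E) (algebraMap k E x)) →
        FineP ℓ (i a) ((gB.map (algebraMap A k)).map i) := by
  classical
  have hinjA : Function.Injective (algebraMap A k) := IsFractionRing.injective A k
  let _ : Algebra A E := ((algebraMap k E).comp (algebraMap A k)).toAlgebra
  have : IsScalarTower A k E := IsScalarTower.of_algebraMap_eq fun _ => rfl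
  let B := integralClosure A E
  have hB1 : IsFractionRing B E := integralClosure.isFractionRing_of_finite_extension k E
  have hB2 : IsDedekindDomain B := integralClosure.isDedekindDomain A k E
  have hB3 : Module.Finite A B := IsIntegralClosure.finite A k E B
  have hinjE : Function.Injective (algebraMap A E) :=
    (algebraMap k E).injective.comp hinjA
  have hinjB : Function.Injective (algebraMap A B) := by
    intro x y hxy
    exact hinjE (congrArg (algebraMap B E) hxy)
  have hB4 : FaithfulSMul A B := (faithfulSMul_iff_algebraMap_injective A B).2 hinjB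
  have hB5 : Module.IsTorsionFree A B := inferInstance
  obtain ⟨Q⟩ := (inferInstance : Nonempty (Ideal.primesOver v₀.asIdeal B))
  have hQp : Q.1.IsPrime := Q.2.1
  have hQl : Q.1.LiesOver v₀.asIdeal := Q.2.2
  have hQ0 : Q.1 ≠ ⊥ := Ideal.ne_bot_of_liesOver_of_ne_bot v₀.ne_bot Q.1
  let w : HeightOneSpectrum B := ⟨Q.1, hQp, hQ0⟩
  have hwl : w.asIdeal.LiesOver v₀.asIdeal := hQl
  have hunder : w.asIdeal.under A = v₀.asIdeal := hQl.over.symm
  have hmaxv : v₀.asIdeal.IsMaximal := v₀.isMaximal
  have hfin : Finite (B ⧸ w.asIdeal) := by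
    have : Module.Finite (A ⧸ v₀.asIdeal) (B ⧸ w.asIdeal) := inferInstance
    exact Module.finite_of_finite (A ⧸ v₀.asIdeal)
  refine ⟨B, inferInstance, hB2, inferInstance, hB1, w, hfin, ?_⟩
  intro k' _ _ i φ hφ
  set W := vc E w with hW
  obtain ⟨e, heq⟩ : ∃ e : ℕ, v₀.asIdeal.ramificationIdx' w.asIdeal = e := ⟨_, rfl⟩
  -- the valuations
  have hval : ∀ x : k, W (φ (i x)) = v₀.valuation k x ^ e := by
    intro x
    rw [hφ, vc_algebraMap, ← heq, HeightOneSpectrum.valuation_liesOver E v₀ w]
  have he : ¬ ℓ ∣ e := by
    rw [← heq]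
    exact ram A k E n hE v₀ w ℓ hℓn
  have hint : ∀ x : A, W (φ (i (algebraMap A k x))) ≤ 1 := by
    intro x
    rw [hval]
    exact pow_le_one' (v₀.valuation_le_one x) _
  let ι : A →+* W.valuationSubring :=
    { toFun := fun y => ⟨φ (i (algebraMap A k y)), hint y⟩
      map_one' := Subtype.ext (by
        change φ (i (algebraMap A k 1)) = 1
        rw [map_one, map_one, map_one])
      map_mul' := fun y z => Subtype.ext (by
        change φ (i (algebraMap A k (y * z))) =
          φ (i (algebraMap A k y)) * φ (i (algebraMap A k z))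
        rw [map_mul, map_mul, map_mul])
      map_zero' := Subtype.ext (by
        change φ (i (algebraMap A k 0)) = 0
        rw [map_zero, map_zero, map_zero])
      map_add' := fun y z => Subtype.ext (by
        change φ (i (algebraMap A k (y + z))) =
          φ (i (algebraMap A k y)) + φ (i (algebraMap A k z))
        rw [map_add, map_add, map_add]) }
  have hι : ∀ y, ((ι y : W.valuationSubring) : w.adicCompletion E) = φ (i (algebraMap A k y)) :=
    fun _ => rfl
  have hιinj : Function.Injective ι := by
    intro y z hyz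
    apply hinjA
    apply i.injective
    apply φ.injective
    exact congrArg Subtype.val hyz
  have hmaxι : ∀ y, ι y ∈ IsLocalRing.maximalIdeal W.valuationSubring ↔ y ∈ v₀.asIdeal := by
    intro y
    rw [mem_max]
    change W (φ (i (algebraMap A k y))) < 1 ↔ _
    rw [hval, ← HeightOneSpectrum.valuation_lt_one_iff_mem (K := k) v₀ y]
    have he0 : e ≠ 0 := by
      rintro rfl
      exact he (dvd_zero _)
    constructor
    · intro h
      by_contra hne
      have h5 : v₀.valuation k (algebraMap A k y) = 1 :=
        le_antisymm (v₀.valuation_le_one y) (not_lt.1 hne)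
      rw [h5, one_pow] at h
      exact lt_irrefl _ h
    · intro h
      exact pow_lt_one₀ zero_le h he0
  have hker : RingHom.ker ((IsLocalRing.residue W.valuationSubring).comp ι) = v₀.asIdeal := by
    ext y
    rw [RingHom.mem_ker, RingHom.comp_apply, IsLocalRing.residue_eq_zero_iff, hmaxι]
  have hunit : ∀ y, y ∉ v₀.asIdeal → IsUnit (ι y) := by
    intro y hy
    rw [← hmaxι] at hy
    exact IsLocalRing.notMem_maximalIdeal.1 hy
  have hresfin : Finite (IsLocalRing.ResidueField W.valuationSubring) := by
    obtain ⟨θ, hθ⟩ := exists_residue (E := E) w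
    exact Finite.of_surjective θ hθ
  -- the residue field is inside the extension of degree `n`
  have hres : ∀ r : IsLocalRing.ResidueField W.valuationSubring,
      r ^ (Nat.card (A ⧸ v₀.asIdeal) ^ n) = r := by
    intro r
    obtain ⟨θ, hθ⟩ := exists_residue (E := E) w
    obtain ⟨y, rfl⟩ := hθ r
    obtain ⟨x, rfl⟩ := Ideal.Quotient.mk_surjective y
    rw [← map_pow, ← map_pow]
    congr 1
    rw [Ideal.Quotient.eq]
    have h1 := frob A k E n hE w.asIdeal x
    rw [hunder] at h1
    exact h1
  have hmap : (gB.map ι).map (algebraMap W.valuationSubring (w.adicCompletion E)) =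
      ((gB.map (algebraMap A k)).map i).map φ := by
    rw [Polynomial.map_map, Polynomial.map_map, Polynomial.map_map]
    rfl
  refine Pool.Agent.Y141.PS.fineP_of_val hFUN W φ ?_ ((gB.map (algebraMap A k)).map i) (gB.map ι)
    hmap ?_ ?_ ?_ ?_ ?_ (i a) (m * e) ?_ ?_
  · have h5 := (Valuation.Integers.isUnit_iff_valuation_eq_one
      (Valuation.valuationSubring.integers W)).1 (hunit _ h2)
    rw [map_natCast] at h5
    change W (algebraMap W.valuationSubring (w.adicCompletion E) (ℓ : W.valuationSubring)) = 1 at h5
    rw [map_natCast] at h5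
    exact h5
  · rw [leadingCoeff_map_of_injective hιinj]
    exact hunit _ hlc
  · rw [Polynomial.map_map]
    have h4 : ∃ θ : (A ⧸ v₀.asIdeal) →+* IsLocalRing.ResidueField W.valuationSubring,
        θ.comp (Ideal.Quotient.mk v₀.asIdeal) = (IsLocalRing.residue W.valuationSubring).comp ι := by
      refine ⟨Ideal.Quotient.lift v₀.asIdeal ((IsLocalRing.residue W.valuationSubring).comp ι)
        (fun y hy => ?_), ?_⟩
      · rw [← hker] at hy
        exact hy
      · refine RingHom.ext fun y => ?_
        rw [RingHom.comp_apply, Ideal.Quotient.lift_mk]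
    obtain ⟨θ, hθ⟩ := h4
    let _ := Ideal.Quotient.field v₀.asIdeal
    rw [← hθ, ← Polynomial.map_map]
    exact hs.map
  · rw [natDegree_map, natDegree_map_eq_of_injective hinjA]
    exact hdvd
  · rw [natDegree_map, natDegree_map_eq_of_injective hinjA]
    exact h3
  · intro b hb
    rw [← IsLocalRing.residue_eq_zero_iff] at hb
    refine hroot _ ((IsLocalRing.residue W.valuationSubring).comp ι)
      (IsLocalRing.residue W.valuationSubring b) hker (hres _) ?_
    rw [← Polynomial.hom_eval₂, ← eval_map]
    exact hb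
  · intro h
    rcases Int.Prime.dvd_mul' (Fact.out : ℓ.Prime) h with h4 | h4
    · exact hm h4
    · exact he (by exact_mod_cast h4)
  · rw [hval, ha, ← exp_nsmul]
    congr 1
    simp only [nsmul_eq_mul]
    ring

end Pool.Agent.U218.UX
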