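import Pool.Agent.U218.UX.Loc
import Pool.Agent.U218.UX.Inf

/-! # Superelliptic twists over all fields inside completions of infinite Galois extensions of
bounded exponent -/

set_option autoImplicit false
set_option linter.all false

namespace Pool.Agent.U218.UX

open IsDedekindDomain WithZero Polynomial
open Pool.Agent.Y157.PS (S_FUN FineP)

/-- The local theorem over all fields inside a completion of a valued field `E`. -/
theorem fineP_val (hFUN : S_FUN) {ℓ : ℕ} [Fact ℓ.Prime] {A k : Type} [CommRing A]
    [IsDedekindDomain A] [Field k] [CharZero k] [Algebra A k] [IsFractionRing A k]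
    (v₀ : HeightOneSpectrum A) [Finite (A ⧸ v₀.asIdeal)]
    (h2 : (ℓ : A) ∉ v₀.asIdeal) (gB : A[X]) (hlc : gB.leadingCoeff ∉ v₀.asIdeal)
    (hs : (gB.map (Ideal.Quotient.mk v₀.asIdeal)).Separable) (hdvd : ℓ ∣ gB.natDegree)
    (h3 : 3 ≤ gB.natDegree) (n : ℕ) (hn0 : n ≠ 0)
    (hroot : ∀ (κ : Type) [Field κ] (j : A →+* κ) (r : κ), RingHom.ker j = v₀.asIdeal →
      r ^ (Nat.card (A ⧸ v₀.asIdeal) ^ n) = r → gB.eval₂ j r ≠ 0)
    (a : k) (m : ℤ) (hm : ¬ (ℓ : ℤ) ∣ m) (ha : v₀.valuation k a = exp m)
    (E : Type) [Field E] [Algebra k E] (V : Valuation E ℤᵐ⁰) (e : ℕ) (he : ¬ ℓ ∣ e)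
    (hV : ∀ x : k, V (algebraMap k E x) = v₀.valuation k x ^ e)
    (hV2 : ∀ x : E, V x ≤ 1 → V (x ^ (Nat.card (A ⧸ v₀.asIdeal) ^ n) - x) < 1) :
    ∃ (B : Type) (_ : CommRing B) (_ : IsDedekindDomain B) (_ : Algebra B E)
      (_ : IsFractionRing B E) (w : HeightOneSpectrum B),
      ∀ (k' : Type) [Field k'] [CharZero k'] (i : k →+* k') (φ : k' →+* w.adicCompletion E),
        (∀ x, φ (i x) = algebraMap E (w.adicCompletion E) (algebraMap k E x)) →
        FineP ℓ (i a) ((gB.map (algebraMap A k)).map i) := by
  classical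
  have hinjA : Function.Injective (algebraMap A k) := IsFractionRing.injective A k
  have hme : ¬ (ℓ : ℤ) ∣ m * e := by
    intro h
    rcases Int.Prime.dvd_mul' (Fact.out : ℓ.Prime) h with h4 | h4
    · exact hm h4
    · exact he (by exact_mod_cast h4)
  have he0 : e ≠ 0 := by
    rintro rfl
    exact he (dvd_zero _)
  have hVa : V (algebraMap k E a) = exp (m * e) := by
    rw [hV, ha, ← exp_nsmul]
    congr 1
    simp only [nsmul_eq_mul]
    ring
  obtain ⟨hdvr, ϖ, t, m', hϖ, ht, hm', hat⟩ :=
    Pool.Agent.Y141.PS.exists_unif_prime V (algebraMap k E a) ℓ (m * e) hme hVa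
  let B := V.valuationSubring
  have hdvr : IsDiscreteValuationRing B := hdvr
  let w : HeightOneSpectrum B := ⟨IsLocalRing.maximalIdeal B, inferInstance,
    IsDiscreteValuationRing.not_a_field B⟩
  refine ⟨B, inferInstance, inferInstance, inferInstance, inferInstance, w, ?_⟩
  have hwB : ∀ x : E, V x ≤ 1 → w.valuation E x ≤ 1 := fun x hx =>
    w.valuation_le_one (⟨x, hx⟩ : B)
  have hwB1 : ∀ x : B, w.valuation E (x : E) < 1 ↔ V (x : E) < 1 := by
    intro x
    rw [← Valuation.mem_maximalIdeal_iff (v := V)]
    exact w.valuation_lt_one_iff_mem x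
  have hwlt : ∀ x : E, V x ≤ 1 → (w.valuation E x < 1 ↔ V x < 1) := fun x hx => hwB1 ⟨x, hx⟩
  intro k' _ _ i φ hφ
  set W := vc E w with hW
  -- the valuations
  have hval : ∀ x : k, W (φ (i x)) = w.valuation E (algebraMap k E x) := by
    intro x
    rw [hφ, vc_algebraMap]
  have hVA : ∀ x : A, V (algebraMap k E (algebraMap A k x)) ≤ 1 := by
    intro x
    rw [hV]
    exact pow_le_one' (v₀.valuation_le_one x) _
  have hint : ∀ x : A, W (φ (i (algebraMap A k x))) ≤ 1 := by
    intro x
    rw [hval]
    exact hwB _ (hVA x)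
  let ι : A →+* W.valuationSubring :=
    { toFun := fun y => ⟨φ (i (algebraMap A k y)), hint y⟩
      map_one' := Subtype.ext (by
        change φ (i (algebraMap A k 1)) = 1
        rw [map_one, map_one, map_one])
      map_mul' := fun y z => Subtype.ext (by
        change φ (i (algebraMap A k (y * z))) =
          φ (i (algebraMap A k y)) * φ (i (algebraMap A k z))
        rw [map_mul, map_mul, map_mul])
      map_zero' := Subtype.ext (by
        change φ (i (algebraMap A k 0)) = 0
        rw [map_zero, map_zero, map_zero])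
      map_add' := fun y z => Subtype.ext (by
        change φ (i (algebraMap A k (y + z))) =
          φ (i (algebraMap A k y)) + φ (i (algebraMap A k z))
        rw [map_add, map_add, map_add]) }
  have hι : ∀ y, ((ι y : W.valuationSubring) : w.adicCompletion E) = φ (i (algebraMap A k y)) :=
    fun _ => rfl
  have hιinj : Function.Injective ι := by
    intro y z hyz
    apply hinjA
    apply i.injective
    apply φ.injective
    exact congrArg Subtype.val hyz
  have hmaxι : ∀ y, ι y ∈ IsLocalRing.maximalIdeal W.valuationSubring ↔ y ∈ v₀.asIdeal := by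
    intro y
    rw [mem_max]
    change W (φ (i (algebraMap A k y))) < 1 ↔ _
    rw [hval, hwlt _ (hVA y), hV, ← HeightOneSpectrum.valuation_lt_one_iff_mem (K := k) v₀ y]
    constructor
    · intro h
      by_contra hne
      have h5 : v₀.valuation k (algebraMap A k y) = 1 :=
        le_antisymm (v₀.valuation_le_one y) (not_lt.1 hne)
      rw [h5, one_pow] at h
      exact lt_irrefl _ h
    · intro h
      exact pow_lt_one₀ zero_le h he0
  have hker : RingHom.ker ((IsLocalRing.residue W.valuationSubring).comp ι) = v₀.asIdeal := by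
    ext y
    rw [RingHom.mem_ker, RingHom.comp_apply, IsLocalRing.residue_eq_zero_iff, hmaxι]
  have hunit : ∀ y, y ∉ v₀.asIdeal → IsUnit (ι y) := by
    intro y hy
    rw [← hmaxι] at hy
    exact IsLocalRing.notMem_maximalIdeal.1 hy
  -- the residue field is inside the extension of degree `n`
  obtain ⟨N, hN⟩ : ∃ N, N = Nat.card (A ⧸ v₀.asIdeal) ^ n := ⟨_, rfl⟩
  have hres : ∀ r : IsLocalRing.ResidueField W.valuationSubring, r ^ N = r := by
    intro r
    obtain ⟨θ, hθ⟩ := exists_residue (E := E) w
    obtain ⟨y, rfl⟩ := hθ r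
    obtain ⟨x, rfl⟩ := Ideal.Quotient.mk_surjective y
    rw [← map_pow, ← map_pow]
    congr 1
    rw [Ideal.Quotient.eq]
    have h4 := hV2 (x : E) x.2
    rw [← hN] at h4
    exact (Valuation.mem_maximalIdeal_iff (v := V) (a := x ^ N - x)).2 h4
  have hN1 : 1 < N := by
    have hnt : Nontrivial (A ⧸ v₀.asIdeal) := Ideal.Quotient.nontrivial_iff.2 v₀.isPrime.ne_top
    have h4 : 1 < Nat.card (A ⧸ v₀.asIdeal) := Finite.one_lt_card
    rw [hN]
    exact Nat.one_lt_pow hn0 h4
  have hresfin : Finite (IsLocalRing.ResidueField W.valuationSubring) := by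
    rw [← not_infinite_iff_finite]
    intro hinf
    have h4 : (X ^ N - X : (IsLocalRing.ResidueField W.valuationSubring)[X]) = 0 := by
      apply Polynomial.eq_zero_of_infinite_isRoot
      refine Set.infinite_of_injective_forall_mem (f := id) Function.injective_id fun r => ?_
      change Polynomial.eval r (X ^ N - X) = 0
      rw [eval_sub, eval_pow, eval_X, hres, sub_self]
    exact FiniteField.X_pow_card_sub_X_ne_zero _ hN1 h4
  have hmap : (gB.map ι).map (algebraMap W.valuationSubring (w.adicCompletion E)) =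
      ((gB.map (algebraMap A k)).map i).map φ := by
    rw [Polynomial.map_map, Polynomial.map_map, Polynomial.map_map]
    rfl
  refine Pool.Agent.Y141.PS.fineP_of_val hFUN W φ ?_ ((gB.map (algebraMap A k)).map i) (gB.map ι)
    hmap ?_ ?_ ?_ ?_ ?_ (i a) (-m') ?_ ?_
  · have h5 := (Valuation.Integers.isUnit_iff_valuation_eq_one
      (Valuation.valuationSubring.integers W)).1 (hunit _ h2)
    rw [map_natCast] at h5
    change W (algebraMap W.valuationSubring (w.adicCompletion E) (ℓ : W.valuationSubring)) = 1 at h5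
    rw [map_natCast] at h5
    exact h5
  · rw [leadingCoeff_map_of_injective hιinj]
    exact hunit _ hlc
  · rw [Polynomial.map_map]
    have hmaxv : v₀.asIdeal.IsMaximal := v₀.isMaximal
    have h4 : ∃ θ : (A ⧸ v₀.asIdeal) →+* IsLocalRing.ResidueField W.valuationSubring,
        θ.comp (Ideal.Quotient.mk v₀.asIdeal) = (IsLocalRing.residue W.valuationSubring).comp ι := by
      refine ⟨Ideal.Quotient.lift v₀.asIdeal ((IsLocalRing.residue W.valuationSubring).comp ι)
        (fun y hy => ?_), ?_⟩
      · rw [← hker] at hy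
        exact hy
      · refine RingHom.ext fun y => ?_
        rw [RingHom.comp_apply, Ideal.Quotient.lift_mk]
    obtain ⟨θ, hθ⟩ := h4
    let _ := Ideal.Quotient.field v₀.asIdeal
    rw [← hθ, ← Polynomial.map_map]
    exact hs.map
  · rw [natDegree_map, natDegree_map_eq_of_injective hinjA]
    exact hdvd
  · rw [natDegree_map, natDegree_map_eq_of_injective hinjA]
    exact h3
  · intro b hb
    rw [← IsLocalRing.residue_eq_zero_iff] at hb
    refine hroot _ ((IsLocalRing.residue W.valuationSubring).comp ι)
      (IsLocalRing.residue W.valuationSubring b) hker (by rw [← hN]; exact hres _) ?_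
    rw [← Polynomial.hom_eval₂, ← eval_map]
    exact hb
  · rwa [Int.dvd_neg]
  · have hϖv : w.valuation E (ϖ : E) = exp (-1) := by
      have h1 : w.intValuation ϖ = exp (-1) := by
        refine w.intValuation_singleton hϖ.ne_zero ?_
        exact hϖ.maximalIdeal_eq
      rw [← h1]
      exact w.valuation_of_algebraMap ϖ
    have htv : w.valuation E (t : E) = 1 := by
      refine (HeightOneSpectrum.valuation_eq_one_iff_notMem w).2 ?_
      exact IsLocalRing.notMem_maximalIdeal.2 ht
    rw [hval, hat, map_mul, htv, one_mul, map_zpow₀, hϖv, ← exp_zsmul]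
    congr 1
    simp

end Pool.Agent.U218.UX
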