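import Pool.Agent.U218.UX.Emb
import Pool.Agent.U218.UX.Loc2
import Pool.Agent.U218.UX.D1d

/-! # Superelliptic twists over all fields in a bounded family: the local theorem at a point of a model -/

set_option autoImplicit false
set_option linter.all false

namespace Pool.Agent.U218.UX

open IsDedekindDomain NumberField WithZero Polynomial Pool.Agent.W858.SF
open Pool.Agent.Y157.PS (S_FUN FineP)

/-- The fields `k'` which embed over `k` in a finitely generated extension of `E` inside `E((T))`, for a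
(finite or infinite) Galois extension `E` of `k` all whose automorphisms have order dividing `n`. -/
def Adm (n : ℕ) (k k' : Type) [Field k] [Field k'] [Algebra k k'] : Prop :=
  ∃ (E : Type) (_ : Field E) (_ : Algebra k E), IsGalois k E ∧ (∀ σ : E ≃ₐ[k] E, σ ^ n = 1) ∧
    ∃ (S : Finset (LaurentSeries E)) (φ : k' →+* LaurentSeries E),
      (∀ x, φ x ∈ IntermediateField.adjoin E (S : Set (LaurentSeries E))) ∧
      ∀ x, φ (algebraMap k k' x) = algebraMap E (LaurentSeries E) (algebraMap k E x)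

/-- a subfield of a finitely generated extension of `E` in `E((T))` embeds in the completions
of `E` -/
theorem emb_of_fg {k k' E : Type} [Field k] [CharZero k] [Countable k] [Field k'] [Algebra k k']
    [Field E] [Algebra k E] [Algebra.IsAlgebraic k E] {B : Type} [CommRing B] [IsDedekindDomain B]
    [Algebra B E] [IsFractionRing B E] (w : HeightOneSpectrum B)
    (S : Finset (LaurentSeries E)) (φ : k' →+* LaurentSeries E)
    (hφS : ∀ x, φ x ∈ IntermediateField.adjoin E (S : Set (LaurentSeries E)))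
    (hφ : ∀ x, φ (algebraMap k k' x) = algebraMap E (LaurentSeries E) (algebraMap k E x)) :
    ∃ ψ : k' →+* w.adicCompletion E,
      ∀ x, ψ (algebraMap k k' x) = algebraMap E (w.adicCompletion E) (algebraMap k E x) := by
  classical
  have hcz : CharZero E := charZero_of_injective_algebraMap (algebraMap k E).injective
  have hc : Countable E := by
    have h1 := Algebraic.countable k E
    have h2 : {x : E | IsAlgebraic k x} = Set.univ :=
      Set.eq_univ_of_forall fun x => Algebra.IsAlgebraic.isAlgebraic x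
    rw [h2] at h1
    exact Set.countable_univ_iff.1 h1
  obtain ⟨ρ⟩ := emb (E := E) w S
  let φM : k' →+* IntermediateField.adjoin E (S : Set (LaurentSeries E)) :=
    φ.codRestrict (IntermediateField.adjoin E (S : Set (LaurentSeries E))) hφS
  refine ⟨(ρ : IntermediateField.adjoin E (S : Set (LaurentSeries E)) →+*
    w.adicCompletion E).comp φM, fun x => ?_⟩
  have h2 : φM (algebraMap k k' x) =
      algebraMap E (IntermediateField.adjoin E (S : Set (LaurentSeries E))) (algebraMap k E x) := by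
    apply Subtype.ext
    exact hφ x
  rw [RingHom.comp_apply, h2]
  exact ρ.commutes _

/-- the local theorem at a point of a model -/
theorem fineP_pt (hFUN : S_FUN) {ℓ : ℕ} [Fact ℓ.Prime] {L : Type} [Field L] [NumberField L]
    (v : HeightOneSpectrum (𝓞 L)) {R : Type} [CommRing R] {k : Type} [Field k] [CharZero k]
    [Countable k] [Algebra R k]
    (hinjk : Function.Injective (algebraMap R k)) (P : R →+* L) (ψ : k →+* v.adicCompletion L)
    (hPint : ∀ r, v.valuation L (P r) ≤ 1)
    (hψ : ∀ r, vv v (ψ (algebraMap R k r) - algebraMap L (v.adicCompletion L) (P r)) ≤ exp (-2))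
    (h2 : (ℓ : 𝓞 L) ∉ v.asIdeal) (G : R[X]) (N : 𝓞 L) (hN : N ∉ v.asIdeal)
    (g : (𝓞 L)[X]) (hg : g.map (algebraMap (𝓞 L) L) = C (algebraMap (𝓞 L) L N) * G.map P)
    (hdeg : g.natDegree = G.natDegree) (hlc : g.leadingCoeff ∉ v.asIdeal)
    (hs : (g.map (Ideal.Quotient.mk v.asIdeal)).Separable) (n : ℕ)
    (hnv : (n : 𝓞 L) ∉ v.asIdeal) (hℓn : ¬ ℓ ∣ n) (hroot : NoRootIn n v g)
    (hdvd : ℓ ∣ G.natDegree) (h3 : 3 ≤ G.natDegree) (a : R)
    (ha : v.valuation L (P a) = exp (-1))
    (k' : Type) [Field k'] [CharZero k'] [Algebra k k'] (hk' : Adm n k k') :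
    FineP ℓ (algebraMap k k' (algebraMap R k a))
      ((G.map (algebraMap R k)).map (algebraMap k k')) := by
  classical
  obtain ⟨E, _, _, hgal, hE, S, φ, hφS, hφ⟩ := hk'
  have hn0 : n ≠ 0 := by
    rintro rfl
    apply hnv
    rw [Nat.cast_zero]
    exact v.asIdeal.zero_mem
  have hfinres := finite_residue v
  have hmax : v.asIdeal.IsMaximal := v.isMaximal
  obtain ⟨θ, hθ, hθr⟩ := exists_residue_map v
  have hθinj : Function.Injective θ := by
    let _ := Ideal.Quotient.field v.asIdeal
    exact θ.injective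
  let Θ : (𝓞 L ⧸ v.asIdeal) ≃+* IsLocalRing.ResidueField (vv v).valuationSubring :=
    RingEquiv.ofBijective θ ⟨hθinj, hθ⟩
  have hγ2 : (exp (-2) : ℤᵐ⁰) < 1 := by
    rw [← exp_zero, exp_lt_exp]
    omega
  have hPv : ∀ r, vv v (algebraMap L (v.adicCompletion L) (P r)) ≤ 1 := fun r => by
    rw [vv_algebraMap]
    exact hPint r
  have hψ1 : ∀ r, vv v (ψ (algebraMap R k r)) ≤ 1 := by
    intro r
    have h1 : ψ (algebraMap R k r) = (ψ (algebraMap R k r) -
      algebraMap L (v.adicCompletion L) (P r)) + algebraMap L (v.adicCompletion L) (P r) := by ring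
    rw [h1]
    exact (Valuation.map_add _ _ _).trans (max_le ((hψ r).trans hγ2.le) (hPv r))
  have hψa : vv v (ψ (algebraMap R k a)) = exp (-1) := by
    have h1 : ψ (algebraMap R k a) = (ψ (algebraMap R k a) -
      algebraMap L (v.adicCompletion L) (P a)) + algebraMap L (v.adicCompletion L) (P a) := by ring
    have h5 : vv v (algebraMap L (v.adicCompletion L) (P a)) = exp (-1) := by
      rw [vv_algebraMap, ha]
    rw [h1, Valuation.map_add_eq_of_lt_right _ (by
      rw [h5]
      refine (hψ a).trans_lt ?_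
      rw [exp_lt_exp]
      omega), h5]
  have hℓ1 : ¬ (ℓ : ℤ) ∣ (-1 : ℤ) := by
    intro h
    have hℓp : ℓ.Prime := Fact.out
    have h5 := Int.natAbs_dvd_natAbs.2 h
    have h6 : ℓ ∣ 1 := by simpa using h5
    exact hℓp.one_lt.ne' (Nat.dvd_one.1 h6)
  -- the valuation ring of `k`
  obtain ⟨hdvr, ϖ, t, m', hϖ, ht, hm', hat⟩ := Pool.Agent.Y141.PS.exists_unif_prime
    ((vv v).comap ψ) (algebraMap R k a) ℓ (-1) hℓ1 hψa
  let A := ((vv v).comap ψ).valuationSubring
  have hdvr : IsDiscreteValuationRing A := hdvr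
  let v₀ : HeightOneSpectrum A := ⟨IsLocalRing.maximalIdeal A, inferInstance,
    IsDiscreteValuationRing.not_a_field A⟩
  let i : A →+* (vv v).valuationSubring :=
    { toFun := fun y => ⟨ψ y, y.2⟩
      map_one' := Subtype.ext (map_one ψ)
      map_mul' := fun y z => Subtype.ext (map_mul ψ _ _)
      map_zero' := Subtype.ext (map_zero ψ)
      map_add' := fun y z => Subtype.ext (map_add ψ _ _) }
  have hloc : IsLocalHom i := by
    refine ⟨fun y hy => ?_⟩
    have h1 := (Valuation.Integers.isUnit_iff_valuation_eq_one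
      (Valuation.valuationSubring.integers (vv v))).1 hy
    exact (Valuation.Integers.isUnit_iff_valuation_eq_one
      (Valuation.valuationSubring.integers ((vv v).comap ψ))).2 h1
  -- the reduction map
  let ρ : A →+* (𝓞 L ⧸ v.asIdeal) :=
    (Θ.symm : IsLocalRing.ResidueField (vv v).valuationSubring →+* (𝓞 L ⧸ v.asIdeal)).comp
      ((IsLocalRing.residue (vv v).valuationSubring).comp i)
  have hρ : ∀ (x : A) (r : 𝓞 L), vv v (ψ (x : k) -
      algebraMap L (v.adicCompletion L) (algebraMap (𝓞 L) L r)) < 1 →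
      ρ x = Ideal.Quotient.mk v.asIdeal r := by
    intro x r hxr
    have h1 := hθr r (i x) hxr
    change Θ.symm (IsLocalRing.residue _ (i x)) = _
    rw [h1]
    exact Θ.symm_apply_apply _
  have hρker : RingHom.ker ρ = v₀.asIdeal := by
    ext y
    rw [RingHom.mem_ker]
    change Θ.symm (IsLocalRing.residue _ (i y)) = 0 ↔ y ∈ IsLocalRing.maximalIdeal A
    rw [map_eq_zero_iff _ Θ.symm.injective, IsLocalRing.residue_eq_zero_iff,
      IsLocalRing.mem_maximalIdeal, IsLocalRing.mem_maximalIdeal, mem_nonunits_iff,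
      mem_nonunits_iff, isUnit_map_iff]
  have hρu : ∀ y, ρ y ≠ 0 ↔ y ∉ v₀.asIdeal := by
    intro y
    rw [← hρker, RingHom.mem_ker]
  -- the polynomial over the valuation ring
  obtain ⟨gB, hgB⟩ : ∃ gB : A[X], gB.map (algebraMap A k) = G.map (algebraMap R k) := by
    have h1 : G.map (algebraMap R k) ∈ Polynomial.lifts (algebraMap A k) := by
      rw [Polynomial.lifts_iff_coeff_lifts]
      intro j
      exact ⟨⟨(G.map (algebraMap R k)).coeff j, by
        rw [coeff_map]
        exact hψ1 _⟩, rfl⟩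
    obtain ⟨f, hf⟩ := (Polynomial.mem_lifts _).1 h1
    exact ⟨f, hf⟩
  have hcoeff : ∀ j, ((gB.coeff j : A) : k) = algebraMap R k (G.coeff j) := by
    intro j
    have h1 := congrArg (fun q => q.coeff j) hgB
    simp only [coeff_map] at h1
    exact h1
  have hNint : ∀ r : 𝓞 L, vv v (algebraMap L (v.adicCompletion L) (algebraMap (𝓞 L) L r)) ≤ 1 := by
    intro r
    rw [vv_algebraMap]
    exact v.valuation_le_one r
  let NB : (vv v).valuationSubring :=
    ⟨algebraMap L (v.adicCompletion L) (algebraMap (𝓞 L) L N), hNint N⟩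
  have hNBres : IsLocalRing.residue _ NB = θ (Ideal.Quotient.mk v.asIdeal N) := by
    apply hθr
    change vv v (algebraMap L (v.adicCompletion L) (algebraMap (𝓞 L) L N) -
      algebraMap L (v.adicCompletion L) (algebraMap (𝓞 L) L N)) < 1
    rw [sub_self, map_zero]
    exact zero_lt_one
  have hres : ∀ j, ρ (gB.coeff j) * Ideal.Quotient.mk v.asIdeal N =
      Ideal.Quotient.mk v.asIdeal (g.coeff j) := by
    intro j
    apply hθinj
    have h0 : ∀ x, θ (ρ x) = IsLocalRing.residue _ (i x) := fun x => Θ.apply_symm_apply _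
    rw [map_mul, h0, ← hNBres, ← map_mul]
    apply hθr
    have h1 : algebraMap (𝓞 L) L (g.coeff j) = algebraMap (𝓞 L) L N * P (G.coeff j) := by
      have h4 := congrArg (fun q => q.coeff j) hg
      simpa only [coeff_map, coeff_C_mul] using h4
    have h4 : ((i (gB.coeff j) * NB : (vv v).valuationSubring) : v.adicCompletion L) -
        algebraMap L (v.adicCompletion L) (algebraMap (𝓞 L) L (g.coeff j)) =
        algebraMap L (v.adicCompletion L) (algebraMap (𝓞 L) L N) * (ψ (algebraMap R k (G.coeff j)) -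
          algebraMap L (v.adicCompletion L) (P (G.coeff j))) := by
      rw [h1, map_mul]
      change ψ (gB.coeff j : k) *
        algebraMap L (v.adicCompletion L) (algebraMap (𝓞 L) L N) - _ = _
      rw [hcoeff]
      ring
    rw [h4, map_mul]
    exact mul_lt_of_le_one_of_lt (hNint N) ((hψ _).trans_lt hγ2)
  have hpoly : gB.map ρ * C (Ideal.Quotient.mk v.asIdeal N) =
      g.map (Ideal.Quotient.mk v.asIdeal) := by
    ext j
    rw [coeff_mul_C, coeff_map, coeff_map]
    exact hres j
  have hinjA : Function.Injective (algebraMap A k) := Subtype.val_injective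
  have hdegB : gB.natDegree = G.natDegree := by
    rw [← natDegree_map_eq_of_injective hinjA gB, hgB, natDegree_map_eq_of_injective hinjk G]
  have hNq : Ideal.Quotient.mk v.asIdeal N ≠ 0 := by
    rwa [Ne, Ideal.Quotient.eq_zero_iff_mem]
  -- the residue field of `A`
  obtain ⟨ρ', hρ'⟩ : ∃ ρ' : (A ⧸ v₀.asIdeal) →+* (𝓞 L ⧸ v.asIdeal),
      ρ'.comp (Ideal.Quotient.mk v₀.asIdeal) = ρ := by
    refine ⟨Ideal.Quotient.lift v₀.asIdeal ρ (fun y hy => ?_), ?_⟩
    · rw [← hρker] at hy
      exact hy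
    · refine RingHom.ext fun y => ?_
      rw [RingHom.comp_apply, Ideal.Quotient.lift_mk]
  have hmax0 : v₀.asIdeal.IsMaximal := v₀.isMaximal
  have hfinv : Finite (𝓞 L ⧸ v.asIdeal) := Ideal.finiteQuotientOfFreeOfNeBot _ v.ne_bot
  have hρ'inj : Function.Injective ρ' := by
    let _ := Ideal.Quotient.field v₀.asIdeal
    exact ρ'.injective
  have hfin0 : Finite (A ⧸ v₀.asIdeal) := Finite.of_injective ρ' hρ'inj
  have hϖv : v₀.valuation k (ϖ : k) = exp (-1) := by
    have h1 : v₀.intValuation ϖ = exp (-1) := by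
      refine v₀.intValuation_singleton hϖ.ne_zero ?_
      exact hϖ.maximalIdeal_eq
    rw [← h1]
    exact v₀.valuation_of_algebraMap ϖ
  have htv : v₀.valuation k (t : k) = 1 := by
    refine (HeightOneSpectrum.valuation_eq_one_iff_notMem v₀).2 ?_
    exact IsLocalRing.notMem_maximalIdeal.2 ht
  have c1 : (ℓ : A) ∉ v₀.asIdeal := by
    rw [← hρu, map_natCast]
    have h4 : Ideal.Quotient.mk v.asIdeal (ℓ : 𝓞 L) ≠ 0 := by
      rwa [Ne, Ideal.Quotient.eq_zero_iff_mem]
    rwa [map_natCast] at h4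
  have c6 : (n : A) ∉ v₀.asIdeal := by
    rw [← hρu, map_natCast]
    have h4 : Ideal.Quotient.mk v.asIdeal (n : 𝓞 L) ≠ 0 := by
      rwa [Ne, Ideal.Quotient.eq_zero_iff_mem]
    rwa [map_natCast] at h4
  have c2 : gB.leadingCoeff ∉ v₀.asIdeal := by
    rw [← hρu]
    intro h4
    have h5 := hres gB.natDegree
    change ρ (gB.leadingCoeff) * _ = _ at h5
    rw [h4, zero_mul, hdegB, ← hdeg] at h5
    apply hlc
    rw [← Ideal.Quotient.eq_zero_iff_mem]
    exact h5.symm
  have c3 : (gB.map (Ideal.Quotient.mk v₀.asIdeal)).Separable := by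
    let _ := Ideal.Quotient.field v₀.asIdeal
    let _ := Ideal.Quotient.field v.asIdeal
    have h4 : ((gB.map (Ideal.Quotient.mk v₀.asIdeal)).map ρ').Separable := by
      rw [Polynomial.map_map, hρ']
      rw [← hpoly] at hs
      exact hs.of_mul_left
    exact (Polynomial.separable_map ρ').1 h4
  have c4 : ∀ (κ : Type) [Field κ] (j : A →+* κ) (r : κ), RingHom.ker j = v₀.asIdeal →
      r ^ (Nat.card (A ⧸ v₀.asIdeal) ^ n) = r → gB.eval₂ j r ≠ 0 := by
    intro κ _ j r hker hr h0
    let _ := Ideal.Quotient.field v₀.asIdeal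
    let _ := Ideal.Quotient.field v.asIdeal
    let _ : Algebra (A ⧸ v₀.asIdeal) (𝓞 L ⧸ v.asIdeal) := ρ'.toAlgebra
    -- the embedding of the residue field of `A` in `κ`
    obtain ⟨j', hj'⟩ : ∃ j' : (A ⧸ v₀.asIdeal) →+* κ,
        j'.comp (Ideal.Quotient.mk v₀.asIdeal) = j := by
      refine ⟨Ideal.Quotient.lift v₀.asIdeal j (fun y hy => ?_), ?_⟩
      · rw [← hker] at hy
        exact hy
      · refine RingHom.ext fun y => ?_
        rw [RingHom.comp_apply, Ideal.Quotient.lift_mk]
    let _ : Algebra (A ⧸ v₀.asIdeal) (AlgebraicClosure κ) :=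
      ((algebraMap κ (AlgebraicClosure κ)).comp j').toAlgebra
    have halg : Algebra.IsAlgebraic (A ⧸ v₀.asIdeal) (𝓞 L ⧸ v.asIdeal) := by
      have : Module.Finite (A ⧸ v₀.asIdeal) (𝓞 L ⧸ v.asIdeal) := Module.Finite.of_finite
      exact Algebra.IsAlgebraic.of_finite _ _
    let Λ : (𝓞 L ⧸ v.asIdeal) →ₐ[A ⧸ v₀.asIdeal] AlgebraicClosure κ := IsAlgClosed.lift
    have hΛρ : ∀ x : A, Λ (ρ x) = algebraMap κ (AlgebraicClosure κ) (j x) := by
      intro x
      have h4 := Λ.commutes (Ideal.Quotient.mk v₀.asIdeal x)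
      have h5 : algebraMap (A ⧸ v₀.asIdeal) (𝓞 L ⧸ v.asIdeal) (Ideal.Quotient.mk v₀.asIdeal x) =
          ρ x := RingHom.congr_fun hρ' x
      rw [h5] at h4
      rw [h4]
      change algebraMap κ (AlgebraicClosure κ) (j' (Ideal.Quotient.mk v₀.asIdeal x)) = _
      rw [← hj']
      rfl
    refine hroot (AlgebraicClosure κ)
      ((Λ : (𝓞 L ⧸ v.asIdeal) →+* AlgebraicClosure κ).comp (Ideal.Quotient.mk v.asIdeal))
      (algebraMap κ (AlgebraicClosure κ) r) ?_ ?_ ?_
    · ext y
      rw [RingHom.mem_ker, RingHom.comp_apply]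
      change Λ (Ideal.Quotient.mk v.asIdeal y) = 0 ↔ _
      rw [← Ideal.Quotient.eq_zero_iff_mem]
      constructor
      · intro h
        apply (Λ : (𝓞 L ⧸ v.asIdeal) →+* AlgebraicClosure κ).injective
        rw [map_zero]
        exact h
      · intro h
        rw [h, map_zero]
    · rw [← map_pow]
      congr 1
      have h4 : Ideal.absNorm v.asIdeal = Nat.card (𝓞 L ⧸ v.asIdeal) := by
        rw [Ideal.absNorm_apply, Submodule.cardQuot_apply]
      have h5 : ∃ s, Nat.card (𝓞 L ⧸ v.asIdeal) = Nat.card (A ⧸ v₀.asIdeal) ^ s := by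
        have : Module.Finite (A ⧸ v₀.asIdeal) (𝓞 L ⧸ v.asIdeal) := Module.Finite.of_finite
        exact ⟨_, Module.natCard_eq_pow_finrank (K := A ⧸ v₀.asIdeal) (V := 𝓞 L ⧸ v.asIdeal)⟩
      obtain ⟨s, h5⟩ := h5
      rw [h4, h5, ← pow_mul, mul_comm s n, pow_mul]
      have h6 : ∀ l : ℕ, r ^ ((Nat.card (A ⧸ v₀.asIdeal) ^ n) ^ l) = r := by
        intro l
        induction l with
        | zero => simp
        | succ l ih => rw [pow_succ, pow_mul, ih, hr]
      exact h6 s
    · have h4 := congrArg (fun q => eval₂ (Λ : (𝓞 L ⧸ v.asIdeal) →+* AlgebraicClosure κ)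
        (algebraMap κ (AlgebraicClosure κ) r) q) hpoly
      simp only [eval₂_mul, eval₂_map, eval₂_C] at h4
      rw [← h4]
      have h5 : (Λ : (𝓞 L ⧸ v.asIdeal) →+* AlgebraicClosure κ).comp ρ =
          (algebraMap κ (AlgebraicClosure κ)).comp j := RingHom.ext fun x => hΛρ x
      rw [h5, ← hom_eval₂, h0, map_zero, zero_mul]
  have c5 : v₀.valuation k (algebraMap R k a) = exp (-m') := by
    rw [hat, map_mul, htv, one_mul, map_zpow₀, hϖv, ← exp_zsmul]
    congr 1
    simp
  obtain ⟨V, hV, hV2⟩ := exists_val n hE v₀ c6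
  obtain ⟨B, _, _, _, _, w, hfin⟩ := fineP_val hFUN v₀ (ℓ := ℓ) c1 gB c2 c3 (by rwa [hdegB])
    (by rwa [hdegB]) n hn0 c4 (algebraMap R k a) (-m') (by rwa [Int.dvd_neg]) c5 E V n hℓn hV hV2
  obtain ⟨ψ', hψ'⟩ := emb_of_fg w S φ hφS hφ
  have h1 := hfin k' (algebraMap k k') ψ' hψ'
  rw [hgB] at h1
  exact h1

end Pool.Agent.U218.UX
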